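import Pool.Agent.helper616_RP.Defs

/-!
# Project TM (helper616): definitions
-/

set_option autoImplicit false

open Finset MeasureTheory Filter Topology
open Pool.Agent.helper616_RP (th S_VAR)

namespace Pool.Agent.helper616_TM

/-- the value at `x` of the polynomial with the coefficients `ω` -/
noncomputable def val {m : ℕ} (ω : Fin m → ℝ) (x : ℕ) : ℝ := ∑ k, ω k * (x : ℝ) ^ (k : ℕ)

/-- a unit cube -/
def Q {m : ℕ} (a : Fin m → ℝ) : Set (Fin m → ℝ) := Set.Icc a (fun i => a i + 1)

/-- the two clusters of arguments -/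
def nodes {r : ℕ} (s : Fin r → ℕ) (p q : ℕ) : Fin (r + r) → ℕ := Fin.append (fun i => p + s i) (fun i => q + s i)

/-- the product of the weights at the arguments `n + s i` -/
noncomputable def tup {m r : ℕ} (s : Fin r → ℕ) (n : ℕ) (ω : Fin m → ℝ) : ℝ := ∏ i, th ⌊val ω (n + s i)⌋₊

/-- the arguments below `N` for which the prime values at `n, …, n + L - 1` are exactly those at `n + h`, `h ∈ H` -/
noncomputable def pat {m : ℕ} (ω : Fin m → ℝ) (H : Finset ℕ) (L N : ℕ) : ℕ :=
  Set.ncard {n : ℕ | n < N ∧ ∀ h < L, (⌊val ω (n + h)⌋₊).Prime ↔ h ∈ H}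

end Pool.Agent.helper616_TM
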