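import Pool.Agent.helper616_TM.Defs

/-!
# Project TM (helper616): bounds
-/

set_option autoImplicit false
set_option maxHeartbeats 4000000

open Finset MeasureTheory Filter Topology
open Pool.Agent.helper616_RP (th S_VAR)

namespace Pool.Agent.helper616_TM

namespace TM9


theorem tup_bound_th_nonneg (n : ℕ) : 0 ≤ th n := by
  unfold th
  split_ifs
  · exact Real.log_natCast_nonneg n
  · exact le_rfl

theorem tup_bound_th_le (n : ℕ) : th n ≤ Real.log (n + 1) := by
  have h0 : (0 : ℝ) ≤ n := Nat.cast_nonneg n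
  unfold th
  split_ifs with h
  · apply Real.log_le_log
    · exact_mod_cast h.pos
    · linarith
  · exact Real.log_nonneg (by linarith)

theorem tup_bound_val {m : ℕ} (c : Fin m → ℝ) (S n x : ℕ) (hx : x ≤ n + S) (ω : Fin m → ℝ)
    (hω : ω ∈ Q c) :
    |val ω x| ≤ (∑ k : Fin m, (|c k| + 1) * ((S : ℝ) + 1) ^ (k : ℕ)) * ((n : ℝ) + 2) ^ m := by
  have hn0 : (0 : ℝ) ≤ n := Nat.cast_nonneg n
  have hS0 : (0 : ℝ) ≤ S := Nat.cast_nonneg S
  have hx0 : (0 : ℝ) ≤ x := Nat.cast_nonneg x
  have hxr : (x : ℝ) ≤ (S + 1) * (n + 2) := by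
    have : (x : ℝ) ≤ n + S := by exact_mod_cast hx
    nlinarith
  unfold val
  refine (Finset.abs_sum_le_sum_abs _ _).trans ?_
  rw [Finset.sum_mul]
  apply Finset.sum_le_sum
  intro k _
  rw [abs_mul, abs_of_nonneg (pow_nonneg hx0 _), mul_assoc]
  have h1 : |ω k| ≤ |c k| + 1 := by
    have h2 := hω.1 k
    have h3 := hω.2 k
    simp only at h3
    rw [abs_le]
    constructor
    · have := neg_abs_le (c k)
      linarith
    · have := le_abs_self (c k)
      linarith
  apply mul_le_mul h1 _ (by positivity) (by positivity)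
  calc (x : ℝ) ^ (k : ℕ) ≤ ((S + 1) * (n + 2)) ^ (k : ℕ) := pow_le_pow_left₀ hx0 hxr _
    _ = (S + 1) ^ (k : ℕ) * (n + 2) ^ (k : ℕ) := mul_pow _ _ _
    _ ≤ (S + 1) ^ (k : ℕ) * (n + 2) ^ m := by
        apply mul_le_mul_of_nonneg_left _ (by positivity)
        exact pow_le_pow_right₀ (by linarith) k.2.le

theorem tup_bound {m : ℕ} (r : ℕ) (c : Fin m → ℝ) (s : Fin r → ℕ) :
    (∀ n, Measurable (fun ω : Fin m → ℝ => tup s n ω)) ∧
    ∃ C : ℝ, ∀ n : ℕ, ∀ ω ∈ Q c, 0 ≤ tup s n ω ∧ tup s n ω ≤ C * (Real.log (n + 2)) ^ r := by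
  constructor
  · intro n
    unfold tup
    apply Finset.measurable_fun_prod
    intro i _
    have h1 : Measurable (fun ω : Fin m → ℝ => val ω (n + s i)) := by
      unfold val
      fun_prop
    exact (measurable_from_top (f := th)).comp (Nat.measurable_floor.comp h1)
  · obtain ⟨S, hS⟩ : ∃ S, S = ∑ i, s i := ⟨_, rfl⟩
    obtain ⟨B, hB⟩ : ∃ B, B = ∑ k : Fin m, (|c k| + 1) * ((S : ℝ) + 1) ^ (k : ℕ) := ⟨_, rfl⟩
    have hB0 : 0 ≤ B := by rw [hB]; positivity
    have hl2 : 0 < Real.log 2 := Real.log_pos (by norm_num)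
    refine ⟨(Real.log (B + 1) / Real.log 2 + m) ^ r, ?_⟩
    intro n ω hω
    have hn0 : (0 : ℝ) ≤ n := Nat.cast_nonneg n
    have hl : Real.log 2 ≤ Real.log (n + 2) := Real.log_le_log (by norm_num) (by linarith)
    refine ⟨Finset.prod_nonneg fun i _ => tup_bound_th_nonneg _, ?_⟩
    have h1 : ∀ i, th ⌊val ω (n + s i)⌋₊ ≤ (Real.log (B + 1) / Real.log 2 + m) * Real.log (n + 2) := by
      intro i
      have hsi : s i ≤ S := by
        rw [hS]
        exact Finset.single_le_sum (fun _ _ => Nat.zero_le _) (Finset.mem_univ i)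
      have h2 := tup_bound_val c S n (n + s i) (by omega) ω hω
      rw [← hB] at h2
      have h3 : (⌊val ω (n + s i)⌋₊ : ℝ) ≤ |val ω (n + s i)| := by
        rcases le_or_gt 0 (val ω (n + s i)) with h | h
        · exact (Nat.floor_le h).trans (le_abs_self _)
        · rw [Nat.floor_of_nonpos h.le]
          simp
      have h4 : (1 : ℝ) ≤ (n + 2) ^ m := one_le_pow₀ (by linarith)
      have h5 : (⌊val ω (n + s i)⌋₊ : ℝ) + 1 ≤ (B + 1) * (n + 2) ^ m := by nlinarith
      calc th ⌊val ω (n + s i)⌋₊ ≤ Real.log (⌊val ω (n + s i)⌋₊ + 1) := tup_bound_th_le _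
        _ ≤ Real.log ((B + 1) * (n + 2) ^ m) := Real.log_le_log (by positivity) h5
        _ = Real.log (B + 1) + m * Real.log (n + 2) := by
            rw [Real.log_mul (by positivity) (by positivity), Real.log_pow]
        _ ≤ (Real.log (B + 1) / Real.log 2 + m) * Real.log (n + 2) := by
            rw [add_mul]
            have h6 : 0 ≤ Real.log (B + 1) := Real.log_nonneg (by linarith)
            have h7 : Real.log (B + 1) = Real.log (B + 1) / Real.log 2 * Real.log 2 := by
              field_simp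
            have h8 : Real.log (B + 1) / Real.log 2 * Real.log 2 ≤
                Real.log (B + 1) / Real.log 2 * Real.log (n + 2) :=
              mul_le_mul_of_nonneg_left hl (by positivity)
            linarith
    unfold tup
    refine (Finset.prod_le_prod (fun i _ => tup_bound_th_nonneg _) (fun i _ => h1 i)).trans ?_
    rw [Finset.prod_const, Finset.card_univ, Fintype.card_fin, mul_pow]

end TM9

end Pool.Agent.helper616_TM
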