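import Pool.Agent.helper616_TM.Defs
import Pool.Agent.helper616_TM.TM9

/-!
# Project TM (helper616): sums over the arguments
-/

set_option autoImplicit false
set_option maxHeartbeats 4000000

open Finset MeasureTheory Filter Topology
open Pool.Agent.helper616_RP (th S_VAR)

namespace Pool.Agent.helper616_TM

open TM9 (tup_bound)

namespace TM10


private theorem fin_ext (F G : ℕ → ℝ) (hG : ∀ R, 2 ≤ R → 0 < G R) (C1 : ℝ)
    (h : ∀ᶠ R : ℕ in atTop, F R ≤ C1 * G R) : ∃ C, ∀ R, 2 ≤ R → F R ≤ C * G R := by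
  obtain ⟨R0, hR0⟩ := eventually_atTop.1 h
  refine ⟨|C1| + ∑ R ∈ range R0, |F R / G R|, fun R hR => ?_⟩
  have hg := hG R hR
  have hs : 0 ≤ ∑ R ∈ range R0, |F R / G R| := Finset.sum_nonneg (fun i _ => abs_nonneg _)
  rcases Nat.lt_or_ge R R0 with h1 | h1
  · have h2 : |F R / G R| ≤ ∑ R ∈ range R0, |F R / G R| :=
      Finset.single_le_sum (f := fun R => |F R / G R|) (fun i _ => abs_nonneg _)
        (Finset.mem_range.2 h1)
    have h3 : F R / G R ≤ |C1| + ∑ R ∈ range R0, |F R / G R| := by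
      have a1 := le_abs_self (F R / G R)
      have a2 := abs_nonneg C1
      linarith
    exact (div_le_iff₀ hg).1 h3
  · have h2 := hR0 R h1
    have h4 : C1 * G R ≤ (|C1| + ∑ R ∈ range R0, |F R / G R|) * G R := by
      refine mul_le_mul_of_nonneg_right ?_ hg.le
      have a1 := le_abs_self C1
      linarith
    linarith

private theorem vol_Q {m : ℕ} (c : Fin m → ℝ) : volume (Q c) = 1 := by
  unfold Q
  rw [Real.volume_Icc_pi]
  simp

private theorem J_bound {m : ℕ} (r : ℕ) (c : Fin m → ℝ) (s : Fin r → ℕ) : ∃ C : ℝ, 0 ≤ C ∧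
    ∀ R q n : ℕ, 2 ≤ R → q < R → n < R →
      |(∫ ω in Q c, tup s q ω * tup s n ω)| ≤ C * (Real.log R) ^ (2 * r) := by
  obtain ⟨_, C0, hC0⟩ := tup_bound r c s
  refine ⟨|C0| * 2 ^ r * (|C0| * 2 ^ r), by positivity, fun R q n hR hq hn => ?_⟩
  have hR' : (2 : ℝ) ≤ R := by exact_mod_cast hR
  have hL : 0 < Real.log R := Real.log_pos (by linarith)
  have hone : ∀ k : ℕ, k < R → ∀ ω ∈ Q c, |tup s k ω| ≤ |C0| * 2 ^ r * (Real.log R) ^ r := by
    intro k hk ω hω
    obtain ⟨h1, h2⟩ := hC0 k ω hω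
    rw [abs_of_nonneg h1]
    have hk' : (k : ℝ) + 1 ≤ R := by exact_mod_cast hk
    have hk0 : (0 : ℝ) ≤ k := Nat.cast_nonneg k
    have hlog : Real.log (k + 2) ≤ 2 * Real.log R := by
      have e : 2 * Real.log R = Real.log ((R : ℝ) ^ 2) := by
        rw [Real.log_pow]; norm_num
      rw [e]
      refine Real.log_le_log (by positivity) ?_
      nlinarith
    have hlog0 : 0 ≤ Real.log ((k : ℝ) + 2) := Real.log_nonneg (by linarith)
    calc tup s k ω ≤ C0 * (Real.log (k + 2)) ^ r := h2
      _ ≤ |C0| * (Real.log (k + 2)) ^ r :=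
          mul_le_mul_of_nonneg_right (le_abs_self _) (pow_nonneg hlog0 _)
      _ ≤ |C0| * (2 * Real.log R) ^ r :=
          mul_le_mul_of_nonneg_left (pow_le_pow_left₀ hlog0 hlog r) (abs_nonneg _)
      _ = |C0| * 2 ^ r * (Real.log R) ^ r := by rw [mul_pow]; ring
  have hv : volume (Q c) < ⊤ := by rw [vol_Q]; exact ENNReal.one_lt_top
  have h3 := norm_setIntegral_le_of_norm_le_const (μ := volume) (s := Q c)
    (f := fun ω => tup s q ω * tup s n ω)
    (C := |C0| * 2 ^ r * (Real.log R) ^ r * (|C0| * 2 ^ r * (Real.log R) ^ r)) hv (by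
      intro ω hω
      rw [Real.norm_eq_abs, abs_mul]
      exact mul_le_mul (hone q hq ω hω) (hone n hn ω hω) (abs_nonneg _) (by positivity))
  have hvr : (volume : Measure (Fin m → ℝ)).real (Q c) = 1 := by
    rw [Measure.real, vol_Q]; simp
  rw [hvr, mul_one, Real.norm_eq_abs] at h3
  refine h3.trans (le_of_eq ?_)
  rw [two_mul, pow_add]; ring

private theorem near_count (q : ℕ) (S : Finset ℕ) (X : ℝ) (hX : 0 ≤ X) :
    ((S.filter (fun n : ℕ => |(q : ℝ) - n| < X)).card : ℝ) ≤ 2 * X + 1 := by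
  have hsub : S.filter (fun n : ℕ => |(q : ℝ) - n| < X) ⊆ Icc (q - ⌊X⌋₊) (q + ⌊X⌋₊) := by
    intro n hn
    rw [mem_filter] at hn
    have h := abs_lt.1 hn.2
    rw [mem_Icc]
    constructor
    · rcases Nat.lt_or_ge n q with h1 | h1
      · have : q - n ≤ ⌊X⌋₊ := by
          apply Nat.le_floor
          rw [Nat.cast_sub h1.le]
          linarith [h.2]
        omega
      · omega
    · rcases Nat.lt_or_ge q n with h1 | h1
      · have : n - q ≤ ⌊X⌋₊ := by
          apply Nat.le_floor
          rw [Nat.cast_sub h1.le]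
          linarith [h.1]
        omega
      · omega
  have h1 := Finset.card_le_card hsub
  rw [Nat.card_Icc] at h1
  have h2 : (S.filter (fun n : ℕ => |(q : ℝ) - n| < X)).card ≤ 2 * ⌊X⌋₊ + 1 := by omega
  have h3 : ((S.filter (fun n : ℕ => |(q : ℝ) - n| < X)).card : ℝ) ≤ 2 * (⌊X⌋₊ : ℝ) + 1 := by
    exact_mod_cast h2
  have h4 := Nat.floor_le hX
  linarith

private theorem log_pow_le (k : ℕ) : ∀ᶠ R : ℕ in atTop, (Real.log R) ^ k ≤ R := by
  have h1 := (Real.isLittleO_pow_log_id_atTop (n := k)).bound (c := 1) one_pos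
  have h2 := tendsto_natCast_atTop_atTop (R := ℝ) |>.eventually h1
  filter_upwards [h2] with R hR
  simp only [id_eq, one_mul, Real.norm_eq_abs] at hR
  have h3 := le_abs_self ((Real.log R) ^ k)
  rw [abs_of_nonneg (Nat.cast_nonneg R : (0 : ℝ) ≤ R)] at hR
  linarith

private theorem log_ge (K : ℝ) : ∀ᶠ R : ℕ in atTop, K ≤ Real.log R :=
  (Real.tendsto_log_atTop.comp tendsto_natCast_atTop_atTop).eventually_ge_atTop K

theorem sums {m : ℕ} (r : ℕ) (c : Fin m → ℝ) (s : Fin r → ℕ)
    (hcore : ∀ D A : ℕ, ∃ C : ℝ, ∀ᶠ R : ℕ in atTop, ∀ p q : ℕ, Nat.sqrt R ≤ p → p < R → Nat.sqrt R ≤ q → q < R →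
      (R : ℝ) / (Real.log R) ^ D ≤ |(p : ℝ) - q| →
      |(∫ ω in Q c, tup s p ω) - 1| ≤ C / (Real.log R) ^ A ∧ |(∫ ω in Q c, tup s p ω * tup s q ω) - 1| ≤ C / (Real.log R) ^ A) :
    (∀ A : ℕ, ∃ C : ℝ, ∀ R : ℕ, 2 ≤ R →
      ∑ n ∈ Ico (Nat.sqrt R) R, |(∫ ω in Q c, tup s n ω) - 1| ≤ C * R / (Real.log R) ^ A) ∧
    (∀ A : ℕ, ∃ C : ℝ, ∀ R : ℕ, 2 ≤ R →
      ∑ q ∈ Ico (Nat.sqrt R) R, ∑ n ∈ Ico (Nat.sqrt R) R, |(∫ ω in Q c, tup s q ω * tup s n ω) - 1| ≤
        C * (R : ℝ) ^ 2 / (Real.log R) ^ A) := by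
  have hlogpos : ∀ R : ℕ, 2 ≤ R → 0 < Real.log (R : ℝ) := by
    intro R hR
    have hR' : (2 : ℝ) ≤ R := by exact_mod_cast hR
    exact Real.log_pos (by linarith)
  constructor
  · intro A
    obtain ⟨C1, hC1⟩ := hcore 1 A
    have key := fin_ext (fun R => ∑ n ∈ Ico (Nat.sqrt R) R, |(∫ ω in Q c, tup s n ω) - 1|)
      (fun R => (R : ℝ) / (Real.log R) ^ A) (fun R hR => by
        have hR' : (0 : ℝ) < R := by exact_mod_cast (by omega : 0 < R)
        have := hlogpos R hR
        positivity) |C1| (by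
        filter_upwards [hC1, log_ge 4, eventually_ge_atTop 16] with R h1 h2 h3
        have hL : 0 < Real.log (R : ℝ) := by linarith
        have hR' : (16 : ℝ) ≤ R := by exact_mod_cast h3
        have hsq : Nat.sqrt R * 4 ≤ R := by
          have a1 : Nat.sqrt R * Nat.sqrt R ≤ R := Nat.sqrt_le R
          have a2 : 4 ≤ Nat.sqrt R := by
            rw [Nat.le_sqrt]; omega
          calc Nat.sqrt R * 4 ≤ Nat.sqrt R * Nat.sqrt R := Nat.mul_le_mul_left _ a2
            _ ≤ R := a1
        have hsq' : (Nat.sqrt R : ℝ) * 4 ≤ R := by exact_mod_cast hsq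
        have hdiv : (R : ℝ) / (Real.log R) ^ 1 ≤ R / 4 := by
          rw [pow_one]
          exact div_le_div_of_nonneg_left (by linarith) (by norm_num) h2
        have hterm : ∀ n ∈ Ico (Nat.sqrt R) R,
            |(∫ ω in Q c, tup s n ω) - 1| ≤ |C1| / (Real.log R) ^ A := by
          intro n hn
          rw [mem_Ico] at hn
          have hle : C1 / (Real.log (R : ℝ)) ^ A ≤ |C1| / (Real.log R) ^ A :=
            div_le_div_of_nonneg_right (le_abs_self _) (pow_nonneg hL.le _)
          rcases le_or_gt ((R : ℝ) / 2) n with h4 | h4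
          · refine (h1 n (Nat.sqrt R) hn.1 hn.2 (le_refl _) (by omega) ?_).1.trans hle
            have h5 := le_abs_self ((n : ℝ) - (Nat.sqrt R : ℕ))
            linarith
          · refine (h1 n (R - 1) hn.1 hn.2 (by omega) (by omega) ?_).1.trans hle
            have h5 := neg_abs_le ((n : ℝ) - ((R - 1 : ℕ) : ℝ))
            have h6 : ((R - 1 : ℕ) : ℝ) = (R : ℝ) - 1 := by
              rw [Nat.cast_sub (by omega)]; simp
            rw [h6] at h5 ⊢
            linarith
        calc ∑ n ∈ Ico (Nat.sqrt R) R, |(∫ ω in Q c, tup s n ω) - 1|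
            ≤ ∑ n ∈ Ico (Nat.sqrt R) R, |C1| / (Real.log R) ^ A := Finset.sum_le_sum hterm
          _ = (R - Nat.sqrt R : ℕ) * (|C1| / (Real.log R) ^ A) := by
              rw [Finset.sum_const, Nat.card_Ico, nsmul_eq_mul]
          _ ≤ R * (|C1| / (Real.log R) ^ A) := by
              refine mul_le_mul_of_nonneg_right ?_ (by positivity)
              exact_mod_cast Nat.sub_le _ _
          _ = |C1| * (R / (Real.log R) ^ A) := by ring)
    obtain ⟨C, hC⟩ := key
    refine ⟨C, fun R hR => ?_⟩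
    have := hC R hR
    have := this
    rwa [← mul_div_assoc] at this
  · intro A
    obtain ⟨C1, hC1⟩ := hcore (A + 2 * r + 1) A
    obtain ⟨B, hB0, hB⟩ := J_bound r c s
    have key := fin_ext (fun R => ∑ q ∈ Ico (Nat.sqrt R) R, ∑ n ∈ Ico (Nat.sqrt R) R,
        |(∫ ω in Q c, tup s q ω * tup s n ω) - 1|)
      (fun R => (R : ℝ) ^ 2 / (Real.log R) ^ A) (fun R hR => by
        have hR' : (0 : ℝ) < R := by exact_mod_cast (by omega : 0 < R)
        have := hlogpos R hR
        positivity) (|C1| + 3 * (B + 1)) (by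
        filter_upwards [hC1, log_ge 1, eventually_ge_atTop 16, log_pow_le (A + 2 * r)]
          with R h1 h2 h3 h4
        set L := Real.log (R : ℝ) with hLdef
        have hL : 0 < L := by linarith
        have hR' : (16 : ℝ) ≤ R := by exact_mod_cast h3
        set X := (R : ℝ) / L ^ (A + 2 * r + 1) with hX
        have hX0 : 0 ≤ X := by positivity
        have hterm : ∀ q ∈ Ico (Nat.sqrt R) R, ∀ n ∈ Ico (Nat.sqrt R) R,
            |(∫ ω in Q c, tup s q ω * tup s n ω) - 1| ≤
              |C1| / L ^ A + (if |(q : ℝ) - n| < X then (B + 1) * L ^ (2 * r) else 0) := by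
          intro q hq n hn
          rw [mem_Ico] at hq hn
          have hC : 0 ≤ |C1| / L ^ A := by positivity
          split_ifs with h5
          · have h6 := hB R q n (by omega) hq.2 hn.2
            have h7 : |(∫ ω in Q c, tup s q ω * tup s n ω) - 1| ≤
                |(∫ ω in Q c, tup s q ω * tup s n ω)| + 1 := by
              have := abs_sub (∫ ω in Q c, tup s q ω * tup s n ω) 1
              rwa [abs_one] at this
            have h8 : (1 : ℝ) ≤ L ^ (2 * r) := one_le_pow₀ h2
            have h9 : (B + 1) * L ^ (2 * r) = B * L ^ (2 * r) + L ^ (2 * r) := by ring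
            rw [h9]
            linarith
          · rw [not_lt] at h5
            have h6 := (h1 q n hq.1 hq.2 hn.1 hn.2 h5).2
            have h7 : C1 / L ^ A ≤ |C1| / L ^ A :=
              div_le_div_of_nonneg_right (le_abs_self _) (pow_nonneg hL.le _)
            linarith
        have hcard : ((R - Nat.sqrt R : ℕ) : ℝ) ≤ R := by exact_mod_cast Nat.sub_le _ _
        have hinner : ∀ q ∈ Ico (Nat.sqrt R) R, ∑ n ∈ Ico (Nat.sqrt R) R,
            |(∫ ω in Q c, tup s q ω * tup s n ω) - 1| ≤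
              R * (|C1| / L ^ A) + (2 * X + 1) * ((B + 1) * L ^ (2 * r)) := by
          intro q hq
          refine (Finset.sum_le_sum (hterm q hq)).trans ?_
          rw [Finset.sum_add_distrib, Finset.sum_const, Nat.card_Ico, nsmul_eq_mul,
            ← Finset.sum_filter, Finset.sum_const, nsmul_eq_mul]
          refine add_le_add ?_ ?_
          · exact mul_le_mul_of_nonneg_right hcard (by positivity)
          · exact mul_le_mul_of_nonneg_right (near_count q _ X hX0) (by positivity)
        have hB1 : 0 ≤ B + 1 := by linarith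
        have hRB : 0 ≤ R * (|C1| / L ^ A) + (2 * X + 1) * ((B + 1) * L ^ (2 * r)) := by positivity
        calc ∑ q ∈ Ico (Nat.sqrt R) R, ∑ n ∈ Ico (Nat.sqrt R) R,
              |(∫ ω in Q c, tup s q ω * tup s n ω) - 1|
            ≤ ∑ q ∈ Ico (Nat.sqrt R) R,
              (R * (|C1| / L ^ A) + (2 * X + 1) * ((B + 1) * L ^ (2 * r))) :=
                Finset.sum_le_sum hinner
          _ = ((R - Nat.sqrt R : ℕ) : ℝ) *
              (R * (|C1| / L ^ A) + (2 * X + 1) * ((B + 1) * L ^ (2 * r))) := by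
                rw [Finset.sum_const, Nat.card_Ico, nsmul_eq_mul]
          _ ≤ R * (R * (|C1| / L ^ A) + (2 * X + 1) * ((B + 1) * L ^ (2 * r))) :=
                mul_le_mul_of_nonneg_right hcard hRB
          _ ≤ (|C1| + 3 * (B + 1)) * ((R : ℝ) ^ 2 / L ^ A) := by
              have e1 : R * (R * (|C1| / L ^ A)) = |C1| * ((R : ℝ) ^ 2 / L ^ A) := by ring
              have e2 : R * (2 * X * ((B + 1) * L ^ (2 * r))) ≤
                  2 * (B + 1) * ((R : ℝ) ^ 2 / L ^ A) := by
                have e3 : R * (2 * X * ((B + 1) * L ^ (2 * r))) =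
                    2 * (B + 1) * ((R : ℝ) ^ 2 * (L ^ (2 * r) / L ^ (A + 2 * r + 1))) := by
                  rw [hX]; ring
                have e4 : L ^ (2 * r) / L ^ (A + 2 * r + 1) ≤ 1 / L ^ A := by
                  rw [div_le_div_iff₀ (by positivity) (by positivity), ← pow_add, one_mul]
                  exact pow_le_pow_right₀ h2 (by omega)
                rw [e3, div_eq_mul_one_div ((R : ℝ) ^ 2) (L ^ A)]
                refine mul_le_mul_of_nonneg_left ?_ (by positivity)
                exact mul_le_mul_of_nonneg_left e4 (by positivity)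
              have e5 : R * (1 * ((B + 1) * L ^ (2 * r))) ≤ (B + 1) * ((R : ℝ) ^ 2 / L ^ A) := by
                have e6 : L ^ (2 * r) ≤ R / L ^ A := by
                  rw [le_div_iff₀ (by positivity), ← pow_add]
                  rw [add_comm (2 * r) A]
                  exact h4
                calc R * (1 * ((B + 1) * L ^ (2 * r))) = (B + 1) * (R * L ^ (2 * r)) := by ring
                  _ ≤ (B + 1) * (R * (R / L ^ A)) := by
                      refine mul_le_mul_of_nonneg_left ?_ hB1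
                      exact mul_le_mul_of_nonneg_left e6 (by linarith)
                  _ = _ := by ring
              have e7 : R * (R * (|C1| / L ^ A) + (2 * X + 1) * ((B + 1) * L ^ (2 * r))) =
                  R * (R * (|C1| / L ^ A)) + (R * (2 * X * ((B + 1) * L ^ (2 * r))) +
                    R * (1 * ((B + 1) * L ^ (2 * r)))) := by ring
              have e8 : (|C1| + 3 * (B + 1)) * ((R : ℝ) ^ 2 / L ^ A) =
                  |C1| * ((R : ℝ) ^ 2 / L ^ A) + (2 * (B + 1) * ((R : ℝ) ^ 2 / L ^ A) +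
                    (B + 1) * ((R : ℝ) ^ 2 / L ^ A)) := by ring
              rw [e7, e8, e1]
              linarith)
    obtain ⟨C, hC⟩ := key
    refine ⟨C, fun R hR => ?_⟩
    have := hC R hR
    have := this
    rwa [← mul_div_assoc] at this

end TM10

end Pool.Agent.helper616_TM
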