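import Pool.Agent.helper616_TM.Defs

/-!
# Project TM (helper616): from cubes to almost all polynomials
-/

set_option autoImplicit false
set_option maxHeartbeats 4000000

open Finset MeasureTheory Filter Topology
open Pool.Agent.helper616_RP (th S_VAR)

namespace Pool.Agent.helper616_TM

namespace TM11


theorem ae_cubes {m : ℕ} (P : (Fin (m + 1) → ℝ) → Prop)
    (h : ∀ c : Fin (m + 1) → ℝ, 0 < c (Fin.last m) → ∀ᵐ ω ∂(volume.restrict (Q c)), P ω) :
    ∀ᵐ ω : Fin (m + 1) → ℝ, 0 < ω (Fin.last m) → P ω := by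
  have h1 : ∀ c : Fin (m + 1) → ℚ, ∀ᵐ ω : Fin (m + 1) → ℝ,
      (0 : ℝ) < (c (Fin.last m) : ℝ) → ω ∈ Q (fun i => (c i : ℝ)) → P ω := by
    intro c
    by_cases hc : (0 : ℝ) < (c (Fin.last m) : ℝ)
    · have h2 := h (fun i => (c i : ℝ)) hc
      have hm : MeasurableSet (Q (fun i => (c i : ℝ))) := by
        unfold Q
        exact measurableSet_Icc
      rw [ae_restrict_iff' hm] at h2
      filter_upwards [h2] with ω hω _ hQ
      exact hω hQ
    · exact Filter.Eventually.of_forall fun ω h0 => absurd h0 hc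
  have h2 := (ae_all_iff (μ := (volume : Measure (Fin (m + 1) → ℝ)))).mpr h1
  filter_upwards [h2] with ω hω h0
  have h3 : ∀ i, ∃ q : ℚ, max (ω i - 1) (if i = Fin.last m then 0 else ω i - 1) < (q : ℝ) ∧
      (q : ℝ) < ω i := by
    intro i
    apply exists_rat_btwn
    rw [max_lt_iff]
    refine ⟨by linarith, ?_⟩
    split_ifs with hi
    · rw [hi]
      exact h0
    · linarith
  choose c hc1 hc2 using h3
  refine hω c ?_ ?_
  · have h4 := hc1 (Fin.last m)
    rw [if_pos rfl, max_lt_iff] at h4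
    exact h4.2
  · unfold Q
    rw [Set.mem_Icc]
    refine ⟨fun i => (hc2 i).le, fun i => ?_⟩
    have h4 := hc1 i
    rw [max_lt_iff] at h4
    show ω i ≤ (c i : ℝ) + 1
    linarith [h4.1]

end TM11

end Pool.Agent.helper616_TM
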