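import Pool.Agent.helper616_TM.Defs

/-!
# Project TM (helper616): the logarithm of the values
-/

set_option autoImplicit false
set_option maxHeartbeats 4000000

open Finset MeasureTheory Filter Topology
open Pool.Agent.helper616_RP (th S_VAR)

namespace Pool.Agent.helper616_TM

namespace TM12


theorem limlog_term (s k m : ℕ) (hk : k ≤ m) :
    Tendsto (fun n : ℕ => ((n + s : ℕ) : ℝ) ^ k / (n : ℝ) ^ m) atTop (𝓝 (if k = m then 1 else 0)) := by
  have h0 : Tendsto (fun n : ℕ => (s : ℝ) / (n : ℝ)) atTop (𝓝 0) :=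
    tendsto_const_div_atTop_nhds_zero_nat (s : ℝ)
  have h1 : Tendsto (fun n : ℕ => (1 + (s : ℝ) / (n : ℝ)) ^ k) atTop (𝓝 ((1 + 0) ^ k)) :=
    (tendsto_const_nhds.add h0).pow k
  have h2 : Tendsto (fun n : ℕ => ((1 : ℝ) / (n : ℝ)) ^ (m - k)) atTop (𝓝 (0 ^ (m - k))) :=
    (tendsto_const_div_atTop_nhds_zero_nat (1 : ℝ)).pow (m - k)
  have h3 := h1.mul h2
  have hl : ((1 : ℝ) + 0) ^ k * 0 ^ (m - k) = if k = m then 1 else 0 := by
    split_ifs with h
    · subst h; simp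
    · have : m - k ≠ 0 := by omega
      simp [this]
  rw [hl] at h3
  refine h3.congr' ?_
  filter_upwards [eventually_ge_atTop 1] with n hn
  have hn0 : (n : ℝ) ≠ 0 := by positivity
  have e1 : (1 : ℝ) + (s : ℝ) / (n : ℝ) = ((n + s : ℕ) : ℝ) / (n : ℝ) := by
    push_cast; field_simp
  have e2 : (n : ℝ) ^ m = (n : ℝ) ^ k * (n : ℝ) ^ (m - k) := by
    rw [← pow_add]; congr 1; omega
  rw [e1, e2, div_pow, div_pow, one_pow]
  field_simp

theorem limlog_ratio {m : ℕ} (ω : Fin (m + 1) → ℝ) (s : ℕ) :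
    Tendsto (fun n : ℕ => val ω (n + s) / (n : ℝ) ^ m) atTop (𝓝 (ω (Fin.last m))) := by
  have h : Tendsto (fun n : ℕ => ∑ k : Fin (m + 1), ω k * (((n + s : ℕ) : ℝ) ^ (k : ℕ) / (n : ℝ) ^ m)) atTop
      (𝓝 (∑ k : Fin (m + 1), ω k * (if (k : ℕ) = m then 1 else 0))) := by
    refine tendsto_finsetSum _ (fun k _ => ?_)
    exact (limlog_term s k m (by have := k.2; omega)).const_mul (ω k)
  have he : (∑ k : Fin (m + 1), ω k * (if (k : ℕ) = m then (1 : ℝ) else 0)) = ω (Fin.last m) := by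
    rw [Finset.sum_eq_single (Fin.last m)]
    · simp
    · intro b _ hb
      have : (b : ℕ) ≠ m := fun hh => hb (Fin.ext (by simpa using hh))
      simp [this]
    · intro h; exact absurd (Finset.mem_univ _) h
  rw [he] at h
  refine h.congr (fun n => ?_)
  unfold val
  rw [Finset.sum_div]
  refine Finset.sum_congr rfl (fun k _ => ?_)
  rw [mul_div_assoc]

theorem limlog {m : ℕ} (hm : 1 ≤ m) (ω : Fin (m + 1) → ℝ) (hω : 0 < ω (Fin.last m)) (s : ℕ) :
    Tendsto (fun n : ℕ => Real.log (val ω (n + s)) / Real.log n) atTop (𝓝 (m : ℝ)) ∧ ∀ᶠ n : ℕ in atTop, 0 < val ω (n + s) := by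
  have hr := limlog_ratio ω s
  have hpos : ∀ᶠ n : ℕ in atTop, 0 < val ω (n + s) / (n : ℝ) ^ m := hr.eventually (lt_mem_nhds hω)
  have hpos2 : ∀ᶠ n : ℕ in atTop, 0 < val ω (n + s) := by
    filter_upwards [hpos, eventually_ge_atTop 1] with n hn h1
    have hn0 : (0 : ℝ) < (n : ℝ) ^ m := by positivity
    exact (div_pos_iff_of_pos_right hn0).1 hn
  refine ⟨?_, hpos2⟩
  have hlog : Tendsto (fun n : ℕ => Real.log (val ω (n + s) / (n : ℝ) ^ m)) atTop (𝓝 (Real.log (ω (Fin.last m)))) :=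
    hr.log hω.ne'
  have hlogn : Tendsto (fun n : ℕ => Real.log (n : ℝ)) atTop atTop :=
    Real.tendsto_log_atTop.comp tendsto_natCast_atTop_atTop
  have h0 : Tendsto (fun n : ℕ => Real.log (val ω (n + s) / (n : ℝ) ^ m) / Real.log (n : ℝ)) atTop (𝓝 0) :=
    hlog.div_atTop hlogn
  have h1 := h0.add_const (m : ℝ)
  rw [zero_add] at h1
  refine h1.congr' ?_
  filter_upwards [hpos2, eventually_ge_atTop 2] with n hn h2
  have hn1 : (1 : ℝ) < (n : ℝ) := by exact_mod_cast h2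
  have hl : 0 < Real.log (n : ℝ) := Real.log_pos hn1
  have hnm : (n : ℝ) ^ m ≠ 0 := by positivity
  rw [Real.log_div hn.ne' hnm, Real.log_pow]
  field_simp
  ring

end TM12

end Pool.Agent.helper616_TM
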