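import Pool.Agent.helper616_TM.Defs

/-!
# Project TM (helper616): exact patterns
-/

set_option autoImplicit false
set_option maxHeartbeats 4000000

open Finset MeasureTheory Filter Topology
open Pool.Agent.helper616_RP (th S_VAR)

namespace Pool.Agent.helper616_TM

namespace TM13


theorem pattern {m : ℕ} (r : ℕ) (ω : Fin m → ℝ) (d : ℝ) (hd : 0 < d)
    (h : ∀ k ≤ r + 1, ∀ s : Fin k → ℕ, Function.Injective s →
      Tendsto (fun N : ℕ => (((range N).filter (fun n => ∀ i, (⌊val ω (n + s i)⌋₊).Prime)).card : ℝ) /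
        (N / ((∏ _i : Fin k, d) * (Real.log N) ^ k))) atTop (𝓝 1))
    (H : Finset ℕ) (hH : H.card ≤ r) (L : ℕ) (hL : ∀ h ∈ H, h < L) :
    Tendsto (fun N : ℕ => (pat ω H L N : ℝ) / (N / (d * Real.log N) ^ H.card)) atTop (𝓝 1) := by
  classical
  set P : ℕ → Prop := fun n => (⌊val ω n⌋₊).Prime with hP
  have key : ∀ T : Finset ℕ, T.card ≤ r + 1 →
      Tendsto (fun N : ℕ => (((range N).filter (fun n => ∀ h ∈ T, P (n + h))).card : ℝ) /
        (N / (d * Real.log N) ^ T.card)) atTop (𝓝 1) := by
    intro T hT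
    have h1 := h T.card hT (T.orderEmbOfFin rfl) (T.orderEmbOfFin rfl).injective
    refine h1.congr (fun N => ?_)
    have e1 : ((range N).filter (fun n => ∀ i, (⌊val ω (n + (T.orderEmbOfFin rfl) i)⌋₊).Prime)) =
        ((range N).filter (fun n => ∀ h ∈ T, P (n + h))) := by
      ext n
      simp only [Finset.mem_filter]
      refine and_congr_right (fun _ => ⟨fun hh x hx => ?_, fun hh i => ?_⟩)
      · have hx' : x ∈ Set.range (T.orderEmbOfFin rfl) := by
          rw [Finset.range_orderEmbOfFin]; exact hx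
        obtain ⟨i, rfl⟩ := hx'
        exact hh i
      · exact hh _ (Finset.orderEmbOfFin_mem _ _ _)
    rw [e1, Finset.prod_const, Finset.card_univ, Fintype.card_fin, mul_pow]
  have hA := key H (by omega)
  -- the exceptional terms
  have hB : ∀ h' ∈ (range L) \ H,
      Tendsto (fun N : ℕ => (((range N).filter (fun n => ∀ h ∈ insert h' H, P (n + h))).card : ℝ) /
        (N / (d * Real.log N) ^ H.card)) atTop (𝓝 0) := by
    intro h' hh'
    have hnot : h' ∉ H := (Finset.mem_sdiff.mp hh').2
    have hc : (insert h' H).card = H.card + 1 := Finset.card_insert_of_notMem hnot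
    have h1 := key (insert h' H) (by omega)
    have hlog : Tendsto (fun N : ℕ => d * Real.log (N : ℝ)) atTop atTop :=
      Tendsto.const_mul_atTop hd (Real.tendsto_log_atTop.comp tendsto_natCast_atTop_atTop)
    have h2 : Tendsto (fun N : ℕ => (d * Real.log (N : ℝ))⁻¹) atTop (𝓝 0) :=
      tendsto_inv_atTop_zero.comp hlog
    have h3 := h1.mul h2
    rw [one_mul] at h3
    refine h3.congr' ?_
    filter_upwards [hlog.eventually_gt_atTop 0] with N hN
    rw [hc, div_div_eq_mul_div, div_div_eq_mul_div, pow_succ]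
    generalize d * Real.log (N : ℝ) = X at hN
    have hX : X ≠ 0 := hN.ne'
    rw [← mul_assoc, mul_div_right_comm, mul_assoc, mul_inv_cancel₀ hX, mul_one]
  have hsum : Tendsto (fun N : ℕ => ∑ h' ∈ (range L) \ H,
      (((range N).filter (fun n => ∀ h ∈ insert h' H, P (n + h))).card : ℝ) /
        (N / (d * Real.log N) ^ H.card)) atTop (𝓝 0) := by
    have := tendsto_finsetSum (f := fun h' => fun N : ℕ =>
      (((range N).filter (fun n => ∀ h ∈ insert h' H, P (n + h))).card : ℝ) /
        (N / (d * Real.log N) ^ H.card)) (a := fun _ => (0 : ℝ)) ((range L) \ H) hB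
    simpa using this
  have hlow := hA.sub hsum
  rw [sub_zero] at hlow
  have hpat : ∀ N : ℕ, pat ω H L N =
      ((range N).filter (fun n => ∀ h < L, P (n + h) ↔ h ∈ H)).card := by
    intro N
    rw [pat, ← Set.ncard_coe_finset]
    congr 1
    ext n
    simp [hP]
  have hub : ∀ N : ℕ, pat ω H L N ≤ ((range N).filter (fun n => ∀ h ∈ H, P (n + h))).card := by
    intro N
    rw [hpat]
    refine Finset.card_le_card ?_
    intro n hn
    rw [Finset.mem_filter] at hn ⊢
    exact ⟨hn.1, fun x hx => (hn.2 x (hL x hx)).mpr hx⟩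
  have hlb : ∀ N : ℕ, ((range N).filter (fun n => ∀ h ∈ H, P (n + h))).card ≤
      pat ω H L N + ∑ h' ∈ (range L) \ H,
        ((range N).filter (fun n => ∀ h ∈ insert h' H, P (n + h))).card := by
    intro N
    rw [hpat]
    refine le_trans (Finset.card_le_card (t := ((range N).filter (fun n => ∀ h < L, P (n + h) ↔ h ∈ H)) ∪
      (((range L) \ H).biUnion (fun h' => (range N).filter (fun n => ∀ h ∈ insert h' H, P (n + h))))) ?_)
      (le_trans (Finset.card_union_le _ _) (Nat.add_le_add_left Finset.card_biUnion_le _))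
    intro n hn
    rw [Finset.mem_filter] at hn
    rw [Finset.mem_union]
    by_cases hc : ∃ h' ∈ (range L) \ H, P (n + h')
    · right
      obtain ⟨h', hh', hp⟩ := hc
      rw [Finset.mem_biUnion]
      refine ⟨h', hh', ?_⟩
      rw [Finset.mem_filter]
      refine ⟨hn.1, fun x hx => ?_⟩
      rcases Finset.mem_insert.mp hx with rfl | hx
      · exact hp
      · exact hn.2 x hx
    · left
      push Not at hc
      rw [Finset.mem_filter]
      refine ⟨hn.1, fun x hx => ⟨fun hp => ?_, fun hx' => hn.2 x hx'⟩⟩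
      by_contra hxH
      exact hc x (Finset.mem_sdiff.mpr ⟨Finset.mem_range.mpr hx, hxH⟩) hp
  have hnn : ∀ N : ℕ, (0 : ℝ) ≤ N / (d * Real.log N) ^ H.card := by
    intro N
    have : 0 ≤ Real.log (N : ℝ) := Real.log_natCast_nonneg N
    positivity
  refine tendsto_of_tendsto_of_tendsto_of_le_of_le hlow hA (fun N => ?_) (fun N => ?_)
  · simp only
    rw [sub_le_iff_le_add, ← Finset.sum_div, ← add_div]
    refine div_le_div_of_nonneg_right ?_ (hnn N)
    exact_mod_cast hlb N
  · simp only
    refine div_le_div_of_nonneg_right ?_ (hnn N)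
    exact_mod_cast hub N

end TM13

end Pool.Agent.helper616_TM
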