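import Pool.Agent.helper616_TM.Defs

/-!
# Project TM (helper616): translates of a cube
-/

set_option autoImplicit false
set_option maxHeartbeats 4000000

open Finset MeasureTheory Filter Topology
open Pool.Agent.helper616_RP (th S_VAR)

namespace Pool.Agent.helper616_TM

namespace TM1


theorem one_sub_sum_le_prod_max {ι : Type*} (s : Finset ι) (t : ι → ℝ) (ht : ∀ i, 0 ≤ t i) :
    1 - ∑ i ∈ s, t i ≤ ∏ i ∈ s, max (1 - t i) 0 ∧ ∏ i ∈ s, max (1 - t i) 0 ≤ 1 := by
  classical
  induction s using Finset.induction_on with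
  | empty => simp
  | insert j s hj ih =>
    rw [Finset.sum_insert hj, Finset.prod_insert hj]
    obtain ⟨h1, h2⟩ := ih
    have h0 : 0 ≤ ∏ i ∈ s, max (1 - t i) 0 := Finset.prod_nonneg fun i _ => le_max_right _ _
    have h3 : 1 - t j ≤ max (1 - t j) 0 := le_max_left _ _
    have h4 : (0 : ℝ) ≤ max (1 - t j) 0 := le_max_right _ _
    have h5 : max (1 - t j) 0 ≤ 1 := max_le (by linarith [ht j]) zero_le_one
    have h6 := ht j
    constructor
    · have a1 : (1 - t j) * ∏ i ∈ s, max (1 - t i) 0 ≤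
          max (1 - t j) 0 * ∏ i ∈ s, max (1 - t i) 0 := mul_le_mul_of_nonneg_right h3 h0
      have a2 : t j * ∏ i ∈ s, max (1 - t i) 0 ≤ t j * 1 := mul_le_mul_of_nonneg_left h2 h6
      nlinarith
    · calc max (1 - t j) 0 * ∏ i ∈ s, max (1 - t i) 0 ≤ 1 * 1 := mul_le_mul h5 h2 h0 zero_le_one
        _ = 1 := one_mul 1

theorem shiftM {m : ℕ} (a h : Fin m → ℝ) (F : (Fin m → ℝ) → ℝ) (hF : Measurable F) (M : ℝ)
    (hb : ∀ ω ∈ Q a, |F ω| ≤ M ∧ |F (ω + h)| ≤ M) :
    |(∫ ω in Q a, F (ω + h)) - ∫ ω in Q a, F ω| ≤ 2 * M * ∑ i, |h i| := by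
  have hM : 0 ≤ M := by
    have := (hb a ⟨le_refl _, fun i => by simp⟩).1
    exact (abs_nonneg _).trans this
  set B' : Set (Fin m → ℝ) := Set.Icc (a + h) (fun i => a i + 1 + h i) with hB'
  have hpre : (fun ω : Fin m → ℝ => ω + h) ⁻¹' B' = Q a := by
    ext ω
    simp only [hB', Q, Set.mem_preimage, Set.mem_Icc, Pi.le_def, Pi.add_apply]
    constructor
    · rintro ⟨h1, h2⟩
      exact ⟨fun i => by linarith [h1 i], fun i => by linarith [h2 i]⟩
    · rintro ⟨h1, h2⟩
      exact ⟨fun i => by linarith [h1 i], fun i => by linarith [h2 i]⟩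
  have hmp : MeasurePreserving (fun ω : Fin m → ℝ => ω + h) volume volume :=
    measurePreserving_add_right volume h
  have hemb : MeasurableEmbedding (fun ω : Fin m → ℝ => ω + h) := measurableEmbedding_addRight h
  have hint : (∫ ω in Q a, F (ω + h)) = ∫ ω in B', F ω := by
    rw [← hpre]
    exact hmp.setIntegral_preimage_emb hemb F B'
  have hBm : MeasurableSet (Q a) := measurableSet_Icc
  have hB'm : MeasurableSet B' := measurableSet_Icc
  have hbB' : ∀ ω ∈ B', |F ω| ≤ M := by
    intro ω hω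
    have : ω - h ∈ Q a := by
      rw [← hpre]; simpa using hω
    have h2 := (hb _ this).2
    simpa using h2
  have hbB : ∀ ω ∈ Q a, |F ω| ≤ M := fun ω hω => (hb ω hω).1
  have hvolB : volume (Q a) = 1 := by
    rw [Q, Real.volume_Icc_pi]
    simp
  have hvolB' : volume B' = 1 := by
    rw [hB', Real.volume_Icc_pi]
    refine Finset.prod_eq_one fun i _ => ?_
    have e1 : a i + 1 + h i - (a + h) i = 1 := by rw [Pi.add_apply]; ring
    rw [e1]; simp
  have hIB : IntegrableOn F (Q a) volume := by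
    refine Measure.integrableOn_of_bounded (M := M) (by rw [hvolB]; simp) hF.aestronglyMeasurable ?_
    exact (ae_restrict_iff' hBm).2 (Eventually.of_forall fun ω hω => by simpa using hbB ω hω)
  have hIB' : IntegrableOn F B' volume := by
    refine Measure.integrableOn_of_bounded (M := M) (by rw [hvolB']; simp) hF.aestronglyMeasurable ?_
    exact (ae_restrict_iff' hB'm).2 (Eventually.of_forall fun ω hω => by simpa using hbB' ω hω)
  have s1 := integral_inter_add_sdiff (μ := volume) (f := F) (s := Q a) (t := B') hB'm hIB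
  have s2 := integral_inter_add_sdiff (μ := volume) (f := F) (s := B') (t := Q a) hBm hIB'
  have len : ∀ x t : ℝ, min (x + 1) (x + 1 + t) - max x (x + t) = 1 - |t| := by
    intro x t
    rcases le_total 0 t with ht | ht
    · rw [min_eq_left (by linarith), max_eq_right (by linarith), abs_of_nonneg ht]; ring
    · rw [min_eq_right (by linarith), max_eq_left (by linarith), abs_of_nonpos ht]; ring
  have hvolI : 1 - ∑ i, |h i| ≤ volume.real (Q a ∩ B') := by
    have e : volume.real (Q a ∩ B') = ∏ i, max (1 - |h i|) 0 := by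
      rw [Q, hB', Set.Icc_inter_Icc, Measure.real, Real.volume_Icc_pi, ENNReal.toReal_prod]
      refine Finset.prod_congr rfl fun i _ => ?_
      rw [ENNReal.toReal_ofReal']
      congr 1
      exact len (a i) (h i)
    rw [e]
    exact (one_sub_sum_le_prod_max Finset.univ (fun i => |h i|) fun i => abs_nonneg _).1
  have hd1 : volume.real (Q a \ B') ≤ ∑ i, |h i| := by
    have : volume.real (Q a ∩ B') + volume.real (Q a \ B') = volume.real (Q a) :=
      measureReal_inter_add_sdiff hB'm (by rw [hvolB]; simp)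
    have e : volume.real (Q a) = 1 := by rw [Measure.real, hvolB]; simp
    linarith
  have hd2 : volume.real (B' \ Q a) ≤ ∑ i, |h i| := by
    have : volume.real (B' ∩ Q a) + volume.real (B' \ Q a) = volume.real B' :=
      measureReal_inter_add_sdiff hBm (by rw [hvolB']; simp)
    have e : volume.real B' = 1 := by rw [Measure.real, hvolB']; simp
    rw [Set.inter_comm] at this
    linarith
  have n1 : ‖∫ ω in Q a \ B', F ω‖ ≤ M * volume.real (Q a \ B') :=
    norm_setIntegral_le_of_norm_le_const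
      (lt_of_le_of_lt (measure_mono Set.sdiff_subset) (by rw [hvolB]; simp))
      (fun ω hω => by simpa using hbB ω hω.1)
  have n2 : ‖∫ ω in B' \ Q a, F ω‖ ≤ M * volume.real (B' \ Q a) :=
    norm_setIntegral_le_of_norm_le_const
      (lt_of_le_of_lt (measure_mono Set.sdiff_subset) (by rw [hvolB']; simp))
      (fun ω hω => by simpa using hbB' ω hω.1)
  rw [hint, ← s1, ← s2, Set.inter_comm B' (Q a)]
  have e3 : (∫ ω in Q a ∩ B', F ω) + (∫ ω in B' \ Q a, F ω) -
      ((∫ ω in Q a ∩ B', F ω) + ∫ ω in Q a \ B', F ω) =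
      (∫ ω in B' \ Q a, F ω) - ∫ ω in Q a \ B', F ω := by ring
  rw [e3]
  rw [Real.norm_eq_abs] at n1 n2
  have m1 := mul_le_mul_of_nonneg_left hd1 hM
  have m2 := mul_le_mul_of_nonneg_left hd2 hM
  calc |(∫ ω in B' \ Q a, F ω) - ∫ ω in Q a \ B', F ω|
      ≤ |∫ ω in B' \ Q a, F ω| + |∫ ω in Q a \ B', F ω| := abs_sub _ _
    _ ≤ 2 * M * ∑ i, |h i| := by linarith

end TM1

end Pool.Agent.helper616_TM
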