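import Pool.Agent.helper616_TM.Defs

/-!
# Project TM (helper616): integrals over a cube
-/

set_option autoImplicit false
set_option maxHeartbeats 4000000

open Finset MeasureTheory Filter Topology
open Pool.Agent.helper616_RP (th S_VAR)

namespace Pool.Agent.helper616_TM

namespace TM2


theorem floor_measurable (φ : ℕ → ℝ) : Measurable (fun t : ℝ => φ ⌊t⌋₊) :=
  (measurable_from_nat (f := φ)).comp Nat.measurable_floor

theorem floor_ii (φ : ℕ → ℝ) (hφ : ∀ n, 0 ≤ φ n) (X : ℕ) (c d : ℝ) (hc : 0 ≤ c) (hcd : c ≤ d)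
    (hd : d ≤ X) : IntervalIntegrable (fun t : ℝ => φ ⌊t⌋₊) volume c d := by
  rw [intervalIntegrable_iff_integrableOn_Ioc_of_le hcd]
  have hb : ∀ t ∈ Set.Ioc c d, ‖φ ⌊t⌋₊‖ ≤ ∑ u ∈ range (X + 1), φ u := by
    intro t ht
    rw [Real.norm_of_nonneg (hφ _)]
    have h0 : 0 ≤ t := le_trans hc ht.1.le
    have h1 : ⌊t⌋₊ ≤ X := by
      have : ⌊t⌋₊ ≤ ⌊(X : ℝ)⌋₊ := Nat.floor_le_floor (le_trans ht.2 hd)
      simpa using this
    exact Finset.single_le_sum (f := φ) (fun i _ => hφ i) (by simp; omega)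
  have hfin : IsFiniteMeasure (volume.restrict (Set.Ioc c d)) := by infer_instance
  refine Integrable.of_bound (μ := volume.restrict (Set.Ioc c d))
    ((floor_measurable φ).aestronglyMeasurable) (∑ u ∈ range (X + 1), φ u) ?_
  filter_upwards [ae_restrict_mem measurableSet_Ioc] with t ht
  exact hb t ht

theorem floor_unit (φ : ℕ → ℝ) (u : ℕ) :
    ∫ t in (u : ℝ)..((u + 1 : ℕ) : ℝ), φ ⌊t⌋₊ = φ u := by
  have h : ∫ t in (u : ℝ)..((u + 1 : ℕ) : ℝ), φ ⌊t⌋₊ = ∫ t in (u : ℝ)..((u + 1 : ℕ) : ℝ), φ u := by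
    apply intervalIntegral.integral_congr_ae
    have hne : ∀ᵐ t : ℝ, t ≠ ((u + 1 : ℕ) : ℝ) := by
      have := (measure_singleton (μ := (volume : Measure ℝ)) (((u + 1 : ℕ) : ℝ)))
      rw [ae_iff]
      simpa using this
    filter_upwards [hne] with t ht hmem
    rw [Set.uIoc_of_le (by push_cast; linarith)] at hmem
    have h1 : (u : ℝ) ≤ t := hmem.1.le
    have h2 : t < ((u + 1 : ℕ) : ℝ) := lt_of_le_of_ne hmem.2 ht
    have : ⌊t⌋₊ = u := by
      rw [Nat.floor_eq_iff (le_trans (Nat.cast_nonneg u) h1)]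
      refine ⟨h1, ?_⟩
      push_cast at h2
      exact h2
    rw [this]
  rw [h]
  simp

theorem floor_total (φ : ℕ → ℝ) (hφ : ∀ n, 0 ≤ φ n) (X : ℕ) :
    ∫ t in (0 : ℝ)..(X : ℝ), φ ⌊t⌋₊ = ∑ u ∈ range X, φ u := by
  have h := intervalIntegral.sum_integral_adjacent_intervals (f := fun t : ℝ => φ ⌊t⌋₊)
    (μ := volume) (a := fun k : ℕ => (k : ℝ)) (n := X) (by
      intro k hk
      apply floor_ii φ hφ X
      · exact Nat.cast_nonneg k
      · push_cast; linarith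
      · exact_mod_cast hk)
  have h0 : ((0 : ℕ) : ℝ) = 0 := Nat.cast_zero
  rw [h0] at h
  rw [← h]
  apply Finset.sum_congr rfl
  intro u _
  exact floor_unit φ u

theorem inner_bound (a U r : ℝ) (hU : 0 < U) (X : ℕ) (φ : ℕ → ℝ) (hφ : ∀ n, 0 ≤ φ n)
    (h0 : 0 ≤ a * U + r) (h1 : (a + 1) * U + r ≤ X) :
    ∫ x in Set.Icc a (a + 1), φ ⌊x * U + r⌋₊ ≤ (∑ u ∈ range X, φ u) / U := by
  rw [integral_Icc_eq_integral_Ioc, ← intervalIntegral.integral_of_le (by linarith)]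
  have h2 : ∫ x in a..(a + 1), φ ⌊x * U + r⌋₊
      = U⁻¹ • ∫ t in (U * a + r)..(U * (a + 1) + r), φ ⌊t⌋₊ := by
    rw [← intervalIntegral.integral_comp_mul_add (fun t => φ ⌊t⌋₊) hU.ne' r]
    simp only [mul_comm]
  rw [h2, smul_eq_mul, div_eq_inv_mul]
  apply mul_le_mul_of_nonneg_left _ (inv_nonneg.mpr hU.le)
  rw [← floor_total φ hφ X]
  apply intervalIntegral.integral_mono_interval
  · nlinarith
  · nlinarith
  · nlinarith
  · exact Filter.Eventually.of_forall (fun t => hφ _)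
  · exact floor_ii φ hφ X 0 X le_rfl (Nat.cast_nonneg X) le_rfl

theorem pullM {m : ℕ} (a U : Fin m → ℝ) (i₀ : Fin m) (hU : 0 < U i₀) (X : ℕ) (φ : ℕ → ℝ) (hφ : ∀ n, 0 ≤ φ n)
    (hx : ∀ ω ∈ Q a, 0 ≤ ∑ i, ω i * U i ∧ ∑ i, ω i * U i < X) :
    ∫ ω in Q a, φ ⌊∑ i, ω i * U i⌋₊ ≤ (∑ u ∈ range X, φ u) / U i₀ := by
  obtain ⟨n, rfl⟩ : ∃ n, m = n + 1 := ⟨m - 1, by have := i₀.pos; omega⟩
  have hS : 0 ≤ ∑ u ∈ range X, φ u := Finset.sum_nonneg (fun i _ => hφ i)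
  set F : (Fin (n + 1) → ℝ) → ℝ := fun ω => φ ⌊∑ i, ω i * U i⌋₊ with hF
  have hmp : MeasurePreserving (MeasurableEquiv.piFinSuccAbove (fun _ : Fin (n + 1) => ℝ) i₀).symm :=
    (volume_preserving_piFinSuccAbove (fun _ : Fin (n + 1) => ℝ) i₀).symm
  set e := (MeasurableEquiv.piFinSuccAbove (fun _ : Fin (n + 1) => ℝ) i₀).symm with he
  have e0 : ∀ z : ℝ × (Fin n → ℝ), e z i₀ = z.1 := by
    intro z
    exact Fin.insertNth_apply_same (α := fun _ : Fin (n + 1) => ℝ) i₀ z.1 z.2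
  have e1 : ∀ (z : ℝ × (Fin n → ℝ)) (j : Fin n), e z (i₀.succAbove j) = z.2 j := by
    intro z j
    exact Fin.insertNth_apply_succAbove (α := fun _ : Fin (n + 1) => ℝ) i₀ z.1 z.2 j
  set b : Fin n → ℝ := fun j => a (i₀.succAbove j) with hb
  have hpre : e ⁻¹' (Q a) = Set.Icc (a i₀) (a i₀ + 1) ×ˢ Q b := by
    ext z
    simp only [Set.mem_preimage, Q, Set.mem_prod, Set.mem_Icc, Pi.le_def]
    constructor
    · rintro ⟨h1, h2⟩
      refine ⟨⟨by simpa [e0] using h1 i₀, by simpa [e0] using h2 i₀⟩, fun j => ?_, fun j => ?_⟩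
      · simpa [e1] using h1 (i₀.succAbove j)
      · simpa [e1] using h2 (i₀.succAbove j)
    · rintro ⟨⟨h1, h2⟩, h3, h4⟩
      constructor
      · intro i
        rcases Fin.eq_self_or_eq_succAbove i₀ i with rfl | ⟨j, rfl⟩
        · rw [e0]; exact h1
        · rw [e1]; exact h3 j
      · intro i
        rcases Fin.eq_self_or_eq_succAbove i₀ i with rfl | ⟨j, rfl⟩
        · rw [e0]; exact h2
        · rw [e1]; exact h4 j
  have hFe : ∀ z : ℝ × (Fin n → ℝ), F (e z) =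
      φ ⌊z.1 * U i₀ + ∑ j, z.2 j * U (i₀.succAbove j)⌋₊ := by
    intro z
    simp only [hF]
    rw [Fin.sum_univ_succAbove _ i₀]
    simp only [e0, e1]
  have hmain : ∫ ω in Q a, F ω = ∫ z in Set.Icc (a i₀) (a i₀ + 1) ×ˢ Q b,
      φ ⌊z.1 * U i₀ + ∑ j, z.2 j * U (i₀.succAbove j)⌋₊ := by
    rw [← hmp.setIntegral_preimage_emb e.measurableEmbedding F (Q a), hpre]
    simp only [hFe]
  rw [hmain]
  have hQm : MeasurableSet (Q b) := measurableSet_Icc
  have hQv : (volume : Measure (Fin n → ℝ)) (Q b) = 1 := by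
    unfold Q
    rw [Real.volume_Icc_pi]
    simp
  have hQf : IsFiniteMeasure ((volume : Measure (Fin n → ℝ)).restrict (Q b)) :=
    ⟨by rw [Measure.restrict_apply_univ, hQv]; exact ENNReal.one_lt_top⟩
  have hmeas : Measurable (fun z : ℝ × (Fin n → ℝ) =>
      φ ⌊z.1 * U i₀ + ∑ j, z.2 j * U (i₀.succAbove j)⌋₊) := by
    apply (floor_measurable φ).comp
    fun_prop
  have hvol : (volume : Measure (ℝ × (Fin n → ℝ))).restrict (Set.Icc (a i₀) (a i₀ + 1) ×ˢ Q b)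
      = (volume.restrict (Set.Icc (a i₀) (a i₀ + 1))).prod (volume.restrict (Q b)) := by
    rw [Measure.prod_restrict, ← Measure.volume_eq_prod]
  have hxz : ∀ z ∈ Set.Icc (a i₀) (a i₀ + 1) ×ˢ Q b,
      0 ≤ z.1 * U i₀ + ∑ j, z.2 j * U (i₀.succAbove j) ∧
      z.1 * U i₀ + ∑ j, z.2 j * U (i₀.succAbove j) < X := by
    intro z hz
    rw [← hpre] at hz
    have := hx (e z) hz
    rw [Fin.sum_univ_succAbove _ i₀] at this
    simpa only [e0, e1] using this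
  have hint : Integrable (fun z : ℝ × (Fin n → ℝ) =>
      φ ⌊z.1 * U i₀ + ∑ j, z.2 j * U (i₀.succAbove j)⌋₊)
      ((volume.restrict (Set.Icc (a i₀) (a i₀ + 1))).prod (volume.restrict (Q b))) := by
    refine Integrable.of_bound hmeas.aestronglyMeasurable (∑ u ∈ range X, φ u) ?_
    rw [← hvol]
    filter_upwards [ae_restrict_mem (measurableSet_Icc.prod hQm)] with ω hω
    rw [Real.norm_of_nonneg (hφ _)]
    obtain ⟨h1, h2⟩ := hxz ω hω
    have h3 := (Nat.floor_lt h1).mpr h2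
    exact Finset.single_le_sum (f := φ) (fun i _ => hφ i) (Finset.mem_range.mpr h3)
  rw [hvol, integral_prod_symm _ hint]
  have hinner : ∀ y ∈ Q b,
      ∫ x in Set.Icc (a i₀) (a i₀ + 1), φ ⌊x * U i₀ + ∑ j, y j * U (i₀.succAbove j)⌋₊ ≤
        (∑ u ∈ range X, φ u) / U i₀ := by
    intro y hy
    apply inner_bound (a i₀) (U i₀) _ hU X φ hφ
    · exact (hxz (a i₀, y) ⟨⟨le_rfl, by simp⟩, hy⟩).1
    · exact (hxz (a i₀ + 1, y) ⟨⟨by simp, le_rfl⟩, hy⟩).2.le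
  have hnn : ∀ y : Fin n → ℝ,
      0 ≤ ∫ x in Set.Icc (a i₀) (a i₀ + 1), φ ⌊x * U i₀ + ∑ j, y j * U (i₀.succAbove j)⌋₊ :=
    fun y => integral_nonneg (fun x => hφ _)
  have hfinal := norm_setIntegral_le_of_norm_le_const (μ := (volume : Measure (Fin n → ℝ)))
    (s := Q b) (f := fun y => ∫ x in Set.Icc (a i₀) (a i₀ + 1),
      φ ⌊x * U i₀ + ∑ j, y j * U (i₀.succAbove j)⌋₊)
    (C := (∑ u ∈ range X, φ u) / U i₀) (by rw [hQv]; exact ENNReal.one_lt_top) (by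
      intro y hy
      rw [Real.norm_of_nonneg (hnn y)]
      exact hinner y hy)
  have hone : (volume : Measure (Fin n → ℝ)).real (Q b) = 1 := by
    rw [Measure.real, hQv]; rfl
  rw [hone, mul_one] at hfinal
  exact le_trans (le_abs_self _) hfinal

end TM2

end Pool.Agent.helper616_TM
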