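import Pool.Agent.helper616_TM.Defs
import Pool.Agent.helper616_TM.TM1
import Pool.Agent.helper616_TM.TM2

/-!
# Project TM (helper616): the averaging argument
-/

set_option autoImplicit false
set_option maxHeartbeats 4000000

open Finset MeasureTheory Filter Topology
open Pool.Agent.helper616_RP (th S_VAR)

namespace Pool.Agent.helper616_TM

open TM1 (shiftM)
open TM2 (pullM)

namespace TM3


theorem genM_meas_x {m : ℕ} (U : Fin m → ℝ) : Measurable (fun ω : Fin m → ℝ => ∑ i, ω i * U i) := by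
  fun_prop

theorem genM_meas_f {m : ℕ} (U : Fin m → ℝ) (f : ℕ → ℝ) :
    Measurable (fun ω : Fin m → ℝ => f ⌊∑ i, ω i * U i⌋₊) := by
  have h1 : Measurable (fun ω : Fin m → ℝ => ⌊∑ i, ω i * U i⌋₊) :=
    Nat.measurable_floor.comp (genM_meas_x U)
  exact (measurable_from_nat (f := f)).comp h1

theorem genM_vol {m : ℕ} (a : Fin m → ℝ) : volume (Q a) = 1 := by
  unfold Q
  rw [Real.volume_Icc_pi]
  simp

theorem genM_measB {m : ℕ} (a : Fin m → ℝ) : MeasurableSet (Q a) := measurableSet_Icc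

theorem genM_int {m : ℕ} (a : Fin m → ℝ) {F : (Fin m → ℝ) → ℝ} (hF : Measurable F) (C : ℝ)
    (hC : ∀ ω ∈ Q a, |F ω| ≤ C) : IntegrableOn F (Q a) := by
  have hfin : IsFiniteMeasure (volume.restrict (Q a)) := ⟨by
    rw [Measure.restrict_apply_univ, genM_vol]; exact ENNReal.one_lt_top⟩
  refine Integrable.of_bound hF.aestronglyMeasurable C ?_
  rw [ae_restrict_iff' (genM_measB a)]
  exact Eventually.of_forall fun ω hω => by rw [Real.norm_eq_abs]; exact hC ω hω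

theorem genM_jensen {m : ℕ} (a : Fin m → ℝ) {G : (Fin m → ℝ) → ℝ} (hG : Measurable G) (C : ℝ)
    (hC : ∀ ω ∈ Q a, |G ω| ≤ C) :
    ∫ ω in Q a, |G ω| ≤ Real.sqrt (∫ ω in Q a, (G ω) ^ 2) := by
  have h1 : IntegrableOn (fun ω => |G ω|) (Q a) := by
    refine genM_int a ?_ C (fun ω hω => by rw [abs_abs]; exact hC ω hω)
    exact hG.abs
  have h2 : IntegrableOn (fun ω => (G ω) ^ 2) (Q a) := by
    refine genM_int a (hG.pow_const 2) (C ^ 2) (fun ω hω => ?_)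
    rw [abs_pow]
    exact pow_le_pow_left₀ (abs_nonneg _) (hC ω hω) 2
  have h3 : IntegrableOn (fun _ : Fin m → ℝ => (1 : ℝ)) (Q a) := by
    refine genM_int a measurable_const 1 (fun ω _ => by simp)
  set A : ℝ := ∫ ω in Q a, |G ω| with hA
  have h0 : 0 ≤ ∫ ω in Q a, (|G ω| - A) ^ 2 := integral_nonneg fun ω => sq_nonneg _
  have e : ∫ ω in Q a, (|G ω| - A) ^ 2
      = ∫ ω in Q a, ((G ω) ^ 2 - (2 * A) * |G ω|) + A ^ 2 * (1 : ℝ) := by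
    refine integral_congr_ae (Eventually.of_forall fun ω => ?_)
    show (|G ω| - A) ^ 2 = ((G ω) ^ 2 - (2 * A) * |G ω|) + A ^ 2 * (1 : ℝ)
    have := sq_abs (G ω)
    nlinarith [this]
  have e1 : ∫ ω in Q a, ((G ω) ^ 2 - (2 * A) * |G ω|) + A ^ 2 * (1 : ℝ)
      = (∫ ω in Q a, ((G ω) ^ 2 - (2 * A) * |G ω|)) + ∫ ω in Q a, A ^ 2 * (1 : ℝ) :=
    integral_add (h2.sub (h1.const_mul (2 * A))) (h3.const_mul (A ^ 2))
  have e2 : ∫ ω in Q a, ((G ω) ^ 2 - (2 * A) * |G ω|)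
      = (∫ ω in Q a, (G ω) ^ 2) - ∫ ω in Q a, (2 * A) * |G ω| :=
    integral_sub h2 (h1.const_mul (2 * A))
  have e3 : ∫ ω in Q a, A ^ 2 * (1 : ℝ) = A ^ 2 := by
    rw [integral_const_mul, setIntegral_const, measureReal_def, genM_vol]
    simp
  rw [e, e1, e2, e3, integral_const_mul, ← hA] at h0
  refine Real.le_sqrt_of_sq_le ?_
  nlinarith [h0]

theorem genM {m : ℕ} (a U : Fin m → ℝ) (i₀ : Fin m) (hU : 0 < U i₀) (X W : ℕ) (hW : 1 ≤ W) (h : Fin m → ℝ)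
    (hh : ∑ i, h i * U i = 1) (ρ : ℝ) (hρ : ∀ i, W * |h i| ≤ ρ) (f : ℕ → ℝ) (L : ℝ) (hf : ∀ n, n < X → |f n| ≤ L)
    (Φ : (Fin m → ℝ) → ℝ) (hΦm : Measurable Φ) (M : ℝ)
    (hx : ∀ ω : Fin m → ℝ, (∀ i, a i - ρ ≤ ω i ∧ ω i ≤ a i + 1 + ρ) →
      0 ≤ ∑ i, ω i * U i ∧ ∑ i, ω i * U i < X ∧ |Φ ω| ≤ M)
    (hΦ : ∀ (ω : Fin m → ℝ) (t : ℝ), Φ (ω + t • h) = Φ ω) :
    |∫ ω in Q a, Φ ω * f ⌊∑ i, ω i * U i⌋₊| ≤
      2 * m * M * L * ρ + M * Real.sqrt ((∑ u ∈ range X, (∑ s ∈ Icc 1 W, f (u + s)) ^ 2) / U i₀) / W := by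
  have hB : ∀ ω ∈ Q a, ∀ i, a i ≤ ω i ∧ ω i ≤ a i + 1 := by
    rintro ω ⟨h1, h2⟩ i
    exact ⟨h1 i, h2 i⟩
  have hW0 : (0 : ℝ) < W := by exact_mod_cast hW
  have hρ0 : 0 ≤ ρ := le_trans (by positivity) (hρ i₀)
  have hsρ : ∀ s : ℕ, s ≤ W → ∀ i, |(s : ℝ) * h i| ≤ ρ := by
    intro s hs i
    have hsW : (s : ℝ) ≤ W := by exact_mod_cast hs
    have hs0 : (0 : ℝ) ≤ s := Nat.cast_nonneg s
    rw [abs_mul, abs_of_nonneg hs0]
    exact le_trans (mul_le_mul_of_nonneg_right hsW (abs_nonneg _)) (hρ i)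
  have hsh : ∀ s : ℕ, s ≤ W → ∀ ω ∈ Q a, ∀ i,
      a i - ρ ≤ (ω + (s : ℝ) • h) i ∧ (ω + (s : ℝ) • h) i ≤ a i + 1 + ρ := by
    intro s hs ω hω i
    obtain ⟨h1, h2⟩ := hB ω hω i
    obtain ⟨b1, b2⟩ := abs_le.mp (hsρ s hs i)
    simp only [Pi.add_apply, Pi.smul_apply, smul_eq_mul]
    exact ⟨by linarith, by linarith⟩
  have hxs : ∀ (s : ℕ) (ω : Fin m → ℝ), ∑ i, (ω + (s : ℝ) • h) i * U i
      = (∑ i, ω i * U i) + s := by
    intro s ω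
    simp only [Pi.add_apply, Pi.smul_apply, smul_eq_mul, add_mul, Finset.sum_add_distrib]
    have : ∑ i, (s : ℝ) * h i * U i = s := by
      simp only [mul_assoc]
      rw [← Finset.mul_sum, hh, mul_one]
    rw [this]
  have hxB : ∀ ω ∈ Q a, 0 ≤ ∑ i, ω i * U i ∧ ∑ i, ω i * U i < X ∧ |Φ ω| ≤ M := by
    intro ω hω
    refine hx ω fun i => ?_
    obtain ⟨h1, h2⟩ := hB ω hω i
    exact ⟨by linarith, by linarith⟩
  have hxsB : ∀ s : ℕ, s ≤ W → ∀ ω ∈ Q a,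
      (∑ i, ω i * U i) + s < X ∧ ⌊∑ i, ω i * U i⌋₊ + s < X := by
    intro s hs ω hω
    obtain ⟨c1, c2, c3⟩ := hx _ (hsh s hs ω hω)
    rw [hxs] at c1 c2
    refine ⟨c2, ?_⟩
    have hx0 := (hxB ω hω).1
    rw [← Nat.floor_add_natCast hx0, Nat.floor_lt c1]
    exact c2
  have hmem : a ∈ Q a := ⟨le_refl _, fun i => by simp only [le_add_iff_nonneg_right]; exact zero_le_one⟩
  have hM : 0 ≤ M := le_trans (abs_nonneg _) (hxB _ hmem).2.2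
  have hL : 0 ≤ L := by
    have := (hxsB 0 (Nat.zero_le _) _ hmem).2
    exact le_trans (abs_nonneg _) (hf _ this)
  set F : (Fin m → ℝ) → ℝ := fun ω => Φ ω * f ⌊∑ i, ω i * U i⌋₊ with hFdef
  have hFm : Measurable F := hΦm.mul (genM_meas_f U f)
  set G : ℕ → ℝ := fun u => ∑ s ∈ Icc 1 W, f (u + s) with hGdef
  have hFs : ∀ s : ℕ, s ≤ W → ∀ ω ∈ Q a,
      F (ω + (s : ℝ) • h) = Φ ω * f (⌊∑ i, ω i * U i⌋₊ + s) := by
    intro s hs ω hω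
    show Φ (ω + (s : ℝ) • h) * f ⌊∑ i, (ω + (s : ℝ) • h) i * U i⌋₊ = _
    rw [hΦ, hxs, Nat.floor_add_natCast (hxB ω hω).1]
  have hFb : ∀ s : ℕ, s ≤ W → ∀ ω ∈ Q a, |F (ω + (s : ℝ) • h)| ≤ M * L := by
    intro s hs ω hω
    rw [hFs s hs ω hω, abs_mul]
    exact mul_le_mul (hxB ω hω).2.2 (hf _ (hxsB s hs ω hω).2) (abs_nonneg _) hM
  have hF0 : ∀ ω ∈ Q a, |F ω| ≤ M * L := by
    intro ω hω
    have := hFb 0 (Nat.zero_le _) ω hω
    simpa using this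
  have hshift : ∀ s ∈ Icc 1 W, |(∫ ω in Q a, F (ω + (s : ℝ) • h)) - ∫ ω in Q a, F ω|
      ≤ 2 * m * M * L * ρ := by
    intro s hs
    obtain ⟨hs1, hs2⟩ := Finset.mem_Icc.mp hs
    have hb := shiftM a ((s : ℝ) • h) F hFm (M * L)
      (fun ω hω => ⟨hF0 ω hω, hFb s hs2 ω hω⟩)
    refine hb.trans ?_
    have hML : 0 ≤ M * L := mul_nonneg hM hL
    calc 2 * (M * L) * ∑ i, |((s : ℝ) • h) i| ≤ 2 * (M * L) * ∑ i : Fin m, ρ := by
          refine mul_le_mul_of_nonneg_left (Finset.sum_le_sum fun i _ => ?_) (by positivity)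
          rw [Pi.smul_apply, smul_eq_mul]
          exact hsρ s hs2 i
      _ = 2 * m * M * L * ρ := by
          rw [Finset.sum_const, Finset.card_univ, Fintype.card_fin, nsmul_eq_mul]
          ring
  have hints : ∀ s ∈ Icc 1 W, IntegrableOn (fun ω => F (ω + (s : ℝ) • h)) (Q a) := by
    intro s hs
    obtain ⟨hs1, hs2⟩ := Finset.mem_Icc.mp hs
    refine genM_int a ?_ (M * L) (fun ω hω => hFb s hs2 ω hω)
    exact hFm.comp (measurable_id.add_const _)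
  have hsum : ∑ s ∈ Icc 1 W, ∫ ω in Q a, F (ω + (s : ℝ) • h)
      = ∫ ω in Q a, Φ ω * G ⌊∑ i, ω i * U i⌋₊ := by
    rw [← integral_finsetSum _ hints]
    refine setIntegral_congr_fun (genM_measB a) fun ω hω => ?_
    show ∑ s ∈ Icc 1 W, F (ω + (s : ℝ) • h) = Φ ω * G ⌊∑ i, ω i * U i⌋₊
    rw [hGdef]
    simp only
    rw [Finset.mul_sum]
    refine Finset.sum_congr rfl fun s hs => ?_
    exact hFs s (Finset.mem_Icc.mp hs).2 ω hω
  have hGm : Measurable (fun ω : Fin m → ℝ => G ⌊∑ i, ω i * U i⌋₊) := genM_meas_f U G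
  have hGb : ∀ ω ∈ Q a, |G ⌊∑ i, ω i * U i⌋₊| ≤ W * L := by
    intro ω hω
    calc |G ⌊∑ i, ω i * U i⌋₊| ≤ ∑ s ∈ Icc 1 W, |f (⌊∑ i, ω i * U i⌋₊ + s)| :=
          Finset.abs_sum_le_sum_abs _ _
      _ ≤ ∑ s ∈ Icc 1 W, L :=
          Finset.sum_le_sum fun s hs => hf _ (hxsB s (Finset.mem_Icc.mp hs).2 ω hω).2
      _ = W * L := by simp
  have hpull : ∫ ω in Q a, (G ⌊∑ i, ω i * U i⌋₊) ^ 2 ≤ (∑ u ∈ range X, (G u) ^ 2) / U i₀ :=
    pullM a U i₀ hU X (fun u => (G u) ^ 2) (fun n => sq_nonneg _)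
      (fun ω hω => ⟨(hxB ω hω).1, (hxB ω hω).2.1⟩)
  have hPG : |∫ ω in Q a, Φ ω * G ⌊∑ i, ω i * U i⌋₊|
      ≤ M * Real.sqrt ((∑ u ∈ range X, (G u) ^ 2) / U i₀) := by
    calc |∫ ω in Q a, Φ ω * G ⌊∑ i, ω i * U i⌋₊|
        ≤ ∫ ω in Q a, |Φ ω * G ⌊∑ i, ω i * U i⌋₊| := abs_integral_le_integral_abs
      _ ≤ ∫ ω in Q a, M * |G ⌊∑ i, ω i * U i⌋₊| := by
          refine setIntegral_mono_on ?_ ?_ (genM_measB a) ?_
          · refine genM_int a ((hΦm.mul hGm).abs) (M * (W * L)) (fun ω hω => ?_)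
            rw [abs_abs, abs_mul]
            exact mul_le_mul (hxB ω hω).2.2 (hGb ω hω) (abs_nonneg _) hM
          · refine genM_int a ((hGm.abs).const_mul M) (M * (W * L)) (fun ω hω => ?_)
            rw [abs_mul, abs_abs, abs_of_nonneg hM]
            exact mul_le_mul_of_nonneg_left (hGb ω hω) hM
          · intro ω hω
            rw [abs_mul]
            exact mul_le_mul_of_nonneg_right (hxB ω hω).2.2 (abs_nonneg _)
      _ = M * ∫ ω in Q a, |G ⌊∑ i, ω i * U i⌋₊| := integral_const_mul _ _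
      _ ≤ M * Real.sqrt (∫ ω in Q a, (G ⌊∑ i, ω i * U i⌋₊) ^ 2) :=
          mul_le_mul_of_nonneg_left (genM_jensen a hGm _ hGb) hM
      _ ≤ M * Real.sqrt ((∑ u ∈ range X, (G u) ^ 2) / U i₀) :=
          mul_le_mul_of_nonneg_left (Real.sqrt_le_sqrt hpull) hM
  have hcard : ∑ s ∈ Icc 1 W, ∫ ω in Q a, F ω = W * ∫ ω in Q a, F ω := by
    simp
  have hdiff : |(W : ℝ) * (∫ ω in Q a, F ω)| ≤ W * (2 * m * M * L * ρ)
      + M * Real.sqrt ((∑ u ∈ range X, (G u) ^ 2) / U i₀) := by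
    have h1 : |(∑ s ∈ Icc 1 W, ∫ ω in Q a, F (ω + (s : ℝ) • h)) - W * ∫ ω in Q a, F ω|
        ≤ W * (2 * m * M * L * ρ) := by
      rw [← hcard, ← Finset.sum_sub_distrib]
      calc |∑ s ∈ Icc 1 W, ((∫ ω in Q a, F (ω + (s : ℝ) • h)) - ∫ ω in Q a, F ω)|
          ≤ ∑ s ∈ Icc 1 W, |(∫ ω in Q a, F (ω + (s : ℝ) • h)) - ∫ ω in Q a, F ω| :=
            Finset.abs_sum_le_sum_abs _ _
        _ ≤ ∑ s ∈ Icc 1 W, 2 * m * M * L * ρ := Finset.sum_le_sum hshift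
        _ = W * (2 * m * M * L * ρ) := by simp
    rw [hsum] at h1
    have h2 := abs_le.mp h1
    have h3 := abs_le.mp hPG
    rw [abs_le]
    constructor <;> linarith [h2.1, h2.2, h3.1, h3.2]
  rw [abs_mul, abs_of_pos hW0] at hdiff
  have hfin : |∫ ω in Q a, F ω| ≤ (W * (2 * m * M * L * ρ)
      + M * Real.sqrt ((∑ u ∈ range X, (G u) ^ 2) / U i₀)) / W := by
    rw [le_div_iff₀ hW0]
    linarith [hdiff]
  refine hfin.trans (le_of_eq ?_)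
  rw [add_div, mul_div_cancel_left₀ _ hW0.ne']

end TM3

end Pool.Agent.helper616_TM
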