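import Pool.Agent.helper616_TM.Defs

/-!
# Project TM (helper616): size of the values
-/

set_option autoImplicit false
set_option maxHeartbeats 4000000

open Finset MeasureTheory Filter Topology
open Pool.Agent.helper616_RP (th S_VAR)

namespace Pool.Agent.helper616_TM

namespace TM5


theorem size {m : ℕ} (hm : 1 ≤ m) (c : Fin (m + 1) → ℝ) (hc : 0 < c (Fin.last m)) :
    ∃ δ ρ₀ M : ℝ, 0 < δ ∧ 0 < ρ₀ ∧ 0 < M ∧ ∀ᶠ x : ℕ in atTop, ∀ ω : Fin (m + 1) → ℝ,
      (∀ i, c i - ρ₀ ≤ ω i ∧ ω i ≤ c i + 1 + ρ₀) → δ * (x : ℝ) ^ m ≤ val ω x ∧ val ω x ≤ M * (x : ℝ) ^ m := by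
  obtain ⟨l, rfl⟩ : ∃ l, m = l + 1 := ⟨m - 1, by omega⟩
  set B : ℝ := ∑ i, (|c i| + 2) with hB
  have hB0 : 0 < B := by
    refine Finset.sum_pos (fun i _ => by positivity) Finset.univ_nonempty
  refine ⟨c (Fin.last (l + 1)) / 4, min 1 (c (Fin.last (l + 1)) / 2), B, by positivity,
    lt_min one_pos (by positivity), hB0, ?_⟩
  filter_upwards [eventually_ge_atTop (max 1 ⌈4 * B / c (Fin.last (l + 1))⌉₊)] with x hx ω hω
  have hx1 : 1 ≤ x := le_trans (le_max_left _ _) hx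
  have hx1' : (1 : ℝ) ≤ x := by exact_mod_cast hx1
  have hx2 : 4 * B / c (Fin.last (l + 1)) ≤ x :=
    le_trans (Nat.le_ceil _) (by exact_mod_cast le_trans (le_max_right _ _) hx)
  have hx3 : 4 * B ≤ x * c (Fin.last (l + 1)) := by
    rwa [div_le_iff₀ hc] at hx2
  have hρ1 : min 1 (c (Fin.last (l + 1)) / 2) ≤ 1 := min_le_left _ _
  have hρ2 : min 1 (c (Fin.last (l + 1)) / 2) ≤ c (Fin.last (l + 1)) / 2 := min_le_right _ _
  have habs : ∀ i, |ω i| ≤ |c i| + 2 := by
    intro i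
    obtain ⟨h1, h2⟩ := hω i
    have h3 := neg_abs_le (c i)
    have h4 := le_abs_self (c i)
    rw [abs_le]
    constructor <;> linarith
  have hxp : (0 : ℝ) ≤ (x : ℝ) := by linarith
  constructor
  · unfold val
    rw [Fin.sum_univ_castSucc]
    have h1 : -(B * (x : ℝ) ^ l) ≤ ∑ i : Fin (l + 1), ω (Fin.castSucc i) * (x : ℝ) ^ ((Fin.castSucc i : Fin (l + 2)) : ℕ) := by
      have h2 : ∀ i : Fin (l + 1), -((|c (Fin.castSucc i)| + 2) * (x : ℝ) ^ l) ≤
          ω (Fin.castSucc i) * (x : ℝ) ^ ((Fin.castSucc i : Fin (l + 2)) : ℕ) := by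
        intro i
        have h3 : (x : ℝ) ^ ((Fin.castSucc i : Fin (l + 2)) : ℕ) ≤ (x : ℝ) ^ l := by
          apply pow_le_pow_right₀ hx1'
          have := i.2
          simp only [Fin.val_castSucc]
          omega
        have h4 : 0 ≤ (x : ℝ) ^ ((Fin.castSucc i : Fin (l + 2)) : ℕ) := by positivity
        have h5 := neg_abs_le (ω (Fin.castSucc i))
        have h6 := habs (Fin.castSucc i)
        have h7 : |ω (Fin.castSucc i)| * (x : ℝ) ^ ((Fin.castSucc i : Fin (l + 2)) : ℕ) ≤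
            (|c (Fin.castSucc i)| + 2) * (x : ℝ) ^ l := mul_le_mul h6 h3 h4 (by positivity)
        nlinarith [mul_le_mul_of_nonneg_right h5 h4]
      have h8 := Finset.sum_le_sum (fun (i : Fin (l + 1)) (_ : i ∈ Finset.univ) => h2 i)
      refine le_trans ?_ h8
      rw [Finset.sum_neg_distrib, ← Finset.sum_mul, neg_le_neg_iff]
      apply mul_le_mul_of_nonneg_right _ (by positivity)
      have hB2 : B = ∑ i : Fin (l + 1), (|c (Fin.castSucc i)| + 2) + (|c (Fin.last (l + 1))| + 2) := by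
        rw [hB, Fin.sum_univ_castSucc]
      rw [hB2]
      have : 0 ≤ |c (Fin.last (l + 1))| + 2 := by positivity
      linarith
    have h9 : c (Fin.last (l + 1)) / 2 ≤ ω (Fin.last (l + 1)) := by
      have := (hω (Fin.last (l + 1))).1
      linarith
    have h10 : c (Fin.last (l + 1)) / 2 * (x : ℝ) ^ (l + 1) ≤ ω (Fin.last (l + 1)) * (x : ℝ) ^ (l + 1) :=
      mul_le_mul_of_nonneg_right h9 (by positivity)
    have h11 : B * (x : ℝ) ^ l ≤ c (Fin.last (l + 1)) / 4 * (x : ℝ) ^ (l + 1) := by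
      have h12 : (0 : ℝ) ≤ (x : ℝ) ^ l := by positivity
      have h13 := mul_le_mul_of_nonneg_right hx3 h12
      rw [pow_succ]
      nlinarith
    simp only [Fin.val_last]
    linarith
  · unfold val
    rw [hB, Finset.sum_mul]
    apply Finset.sum_le_sum
    intro i _
    have h3 : (x : ℝ) ^ (i : ℕ) ≤ (x : ℝ) ^ (l + 1) := by
      apply pow_le_pow_right₀ hx1'
      have := i.2
      omega
    have h4 : 0 ≤ (x : ℝ) ^ (i : ℕ) := by positivity
    have h7 : |ω i| * (x : ℝ) ^ (i : ℕ) ≤ (|c i| + 2) * (x : ℝ) ^ (l + 1) :=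
      mul_le_mul (habs i) h3 h4 (by positivity)
    exact le_trans (mul_le_mul_of_nonneg_right (le_abs_self _) h4) h7

end TM5

end Pool.Agent.helper616_TM
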