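import Pool.Agent.helper616_TM.Defs

/-!
# Project TM (helper616): interpolation
-/

set_option autoImplicit false
set_option maxHeartbeats 4000000

open Finset MeasureTheory Filter Topology
open Pool.Agent.helper616_RP (th S_VAR)

namespace Pool.Agent.helper616_TM

namespace TM4


theorem direction_coeff {m : ℕ} (x : Fin m → ℕ) (hp : ∀ i, 1 ≤ x i) (s : Finset (Fin m)) :
    ∀ k : ℕ, |(∏ i ∈ s, (Polynomial.X - Polynomial.C (x i : ℝ))).coeff k| ≤ ∏ i ∈ s, (2 * (x i : ℝ)) := by
  classical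
  induction s using Finset.induction_on with
  | empty =>
    intro k
    simp only [Finset.prod_empty, Polynomial.coeff_one]
    split_ifs <;> simp
  | insert b t hb ih =>
    intro k
    rw [Finset.prod_insert hb, Finset.prod_insert hb]
    have hb1 : (1 : ℝ) ≤ x b := by exact_mod_cast hp b
    have hB : (0 : ℝ) ≤ ∏ i ∈ t, (2 * (x i : ℝ)) := Finset.prod_nonneg (fun i _ => by positivity)
    rw [sub_mul, Polynomial.coeff_sub, Polynomial.coeff_C_mul]
    have h1 : |(Polynomial.X * ∏ i ∈ t, (Polynomial.X - Polynomial.C (x i : ℝ))).coeff k| ≤ ∏ i ∈ t, (2 * (x i : ℝ)) := by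
      cases k with
      | zero => simpa using hB
      | succ k => rw [Polynomial.coeff_X_mul]; exact ih k
    have h2 := ih k
    calc |(Polynomial.X * ∏ i ∈ t, (Polynomial.X - Polynomial.C (x i : ℝ))).coeff k
          - (x b : ℝ) * (∏ i ∈ t, (Polynomial.X - Polynomial.C (x i : ℝ))).coeff k|
        ≤ |(Polynomial.X * ∏ i ∈ t, (Polynomial.X - Polynomial.C (x i : ℝ))).coeff k|
          + |(x b : ℝ) * (∏ i ∈ t, (Polynomial.X - Polynomial.C (x i : ℝ))).coeff k| := abs_sub _ _
      _ ≤ ∏ i ∈ t, (2 * (x i : ℝ)) + (x b : ℝ) * ∏ i ∈ t, (2 * (x i : ℝ)) := by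
          rw [abs_mul, abs_of_nonneg (by positivity : (0 : ℝ) ≤ x b)]
          gcongr
      _ ≤ 2 * (x b : ℝ) * ∏ i ∈ t, (2 * (x i : ℝ)) := by nlinarith

theorem direction (m a : ℕ) (x : Fin m → ℕ) (hx : Function.Injective x) (hp : ∀ i, 1 ≤ x i) (j : Fin m) :
    ∃ h : Fin m → ℝ, ∑ k, h k * (x j : ℝ) ^ (a + (k : ℕ)) = 1 ∧
      (∀ i, i ≠ j → ∑ k, h k * (x i : ℝ) ^ (a + (k : ℕ)) = 0) ∧
      ∀ k, |h k| ≤ (∏ i ∈ univ.erase j, (2 * (x i : ℝ) / |(x j : ℝ) - x i|)) / (x j : ℝ) ^ a := by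
  classical
  set P : Polynomial ℝ := ∏ i ∈ univ.erase j, (Polynomial.X - Polynomial.C (x i : ℝ)) with hP
  set D : ℝ := ∏ i ∈ univ.erase j, ((x j : ℝ) - x i) with hD
  have hdeg : P.natDegree < m := by
    have h1 : P.natDegree = (univ.erase j).card := by
      rw [hP, Polynomial.natDegree_prod_of_monic _ _ (fun i _ => Polynomial.monic_X_sub_C _),
        Finset.sum_congr rfl (fun i _ => Polynomial.natDegree_X_sub_C _), Finset.sum_const, smul_eq_mul, mul_one]
    rw [h1, Finset.card_erase_of_mem (Finset.mem_univ j), Finset.card_univ, Fintype.card_fin]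
    have := j.pos
    omega
  have heval : ∀ y : ℝ, ∑ k : Fin m, P.coeff k * y ^ (k : ℕ) = P.eval y := by
    intro y
    rw [Polynomial.eval_eq_sum_range' hdeg, Finset.sum_range]
  have hD0 : D ≠ 0 := by
    rw [hD]
    refine Finset.prod_ne_zero_iff.mpr (fun i hi => ?_)
    have hij : i ≠ j := Finset.ne_of_mem_erase hi
    intro h0
    have : (x j : ℝ) = x i := sub_eq_zero.mp h0
    have h2 : x j = x i := by exact_mod_cast this
    exact hij (hx h2).symm
  have hxj : (0 : ℝ) < x j := by exact_mod_cast hp j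
  have hsum : ∀ y : ℝ, ∑ k : Fin m, (P.coeff k / D / (x j : ℝ) ^ a) * y ^ (a + (k : ℕ)) =
      P.eval y * y ^ a / D / (x j : ℝ) ^ a := by
    intro y
    rw [← heval y, Finset.sum_mul, Finset.sum_div, Finset.sum_div]
    refine Finset.sum_congr rfl (fun k _ => ?_)
    rw [pow_add]
    ring
  refine ⟨fun k => P.coeff k / D / (x j : ℝ) ^ a, ?_, ?_, ?_⟩
  · simp only
    rw [hsum]
    have : P.eval (x j : ℝ) = D := by
      rw [hP, hD, Polynomial.eval_prod]
      simp
    rw [this]
    have h3 : (x j : ℝ) ^ a ≠ 0 := pow_ne_zero _ hxj.ne'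
    field_simp
  · intro i hij
    simp only
    rw [hsum]
    have : P.eval (x i : ℝ) = 0 := by
      rw [hP, Polynomial.eval_prod]
      refine Finset.prod_eq_zero (Finset.mem_erase.mpr ⟨hij, Finset.mem_univ i⟩) (by simp)
    rw [this]
    simp
  · intro k
    simp only
    rw [abs_div, abs_div, abs_of_pos (pow_pos hxj a)]
    refine div_le_div_of_nonneg_right ?_ (pow_pos hxj a).le
    rw [Finset.prod_div_distrib]
    have hDabs : |D| = ∏ i ∈ univ.erase j, |(x j : ℝ) - x i| := by rw [hD, Finset.abs_prod]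
    rw [hDabs]
    refine div_le_div_of_nonneg_right (direction_coeff x hp _ k) ?_
    exact Finset.prod_nonneg (fun i _ => abs_nonneg _)

end TM4

end Pool.Agent.helper616_TM
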