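import Pool.Agent.helper616_TM.Defs
import Pool.Agent.helper616_TM.TM3
import Pool.Agent.helper616_TM.TM5
import Pool.Agent.helper616_TM.TM6

/-!
# Project TM (helper616): one more factor
-/

set_option autoImplicit false
set_option maxHeartbeats 4000000

open Finset MeasureTheory Filter Topology
open Pool.Agent.helper616_RP (th S_VAR)

namespace Pool.Agent.helper616_TM

open TM3 (genM)
open TM5 (size)
open TM6 (clusterDir)

namespace TM7


/-- bounds of the nodes -/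
theorem step_nodes {r : ℕ} (s : Fin r → ℕ) (p q R : ℕ) (hp : Nat.sqrt R ≤ p) (hp' : p < R) (hq : Nat.sqrt R ≤ q)
    (hq' : q < R) (i : Fin (r + r)) : Nat.sqrt R ≤ nodes s p q i ∧ nodes s p q i ≤ R + ∑ i, s i := by
  have hsi : ∀ i, s i ≤ ∑ i, s i := fun i => Finset.single_le_sum (fun _ _ => Nat.zero_le _) (Finset.mem_univ i)
  unfold nodes
  refine Fin.addCases (fun k => ?_) (fun k => ?_) i
  · rw [Fin.append_left]
    have := hsi k
    constructor <;> omega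
  · rw [Fin.append_right]
    have := hsi k
    constructor <;> omega

/-- bounds of the weight -/
theorem step_th (n : ℕ) (B : ℝ) (hB : 1 ≤ B) (h : (n : ℝ) ≤ Real.exp B) : 0 ≤ th n ∧ th n ≤ B := by
  unfold th
  split_ifs with hn
  · have hn0 : (0 : ℝ) < n := by exact_mod_cast hn.pos
    refine ⟨Real.log_nonneg (by exact_mod_cast hn.one_lt.le), ?_⟩
    rw [← Real.log_exp B]
    exact Real.log_le_log hn0 h
  · exact ⟨le_refl _, by linarith⟩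

theorem step_val_add {m : ℕ} (ω h : Fin m → ℝ) (t : ℝ) (x : ℕ) : val (ω + t • h) x = val ω x + t * val h x := by
  unfold val
  rw [Finset.mul_sum, ← Finset.sum_add_distrib]
  refine Finset.sum_congr rfl fun k _ => ?_
  simp only [Pi.add_apply, Pi.smul_apply, smul_eq_mul]
  ring

theorem step_val_meas {m : ℕ} (x : ℕ) : Measurable (fun ω : Fin m → ℝ => th ⌊val ω x⌋₊) := by
  have h1 : Measurable (fun ω : Fin m → ℝ => val ω x) := by
    unfold val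
    fun_prop
  have h2 : Measurable (fun ω : Fin m → ℝ => ⌊val ω x⌋₊) := h1.nat_floor
  exact (measurable_of_countable th).comp h2

/-- the direction, with the coefficients numbered by `Fin (m + 1)` -/
theorem step_dir {m a r : ℕ} (hm : m + 1 = a + (r + r)) (h : Fin (a + (r + r)) → ℝ) :
    ∃ h' : Fin (m + 1) → ℝ, (∀ x : ℝ, ∑ k, h' k * x ^ (k : ℕ) = ∑ k, h k * x ^ (k : ℕ)) ∧
      ∀ k, ∃ k', h' k = h k' := by
  refine ⟨fun k => h (Fin.cast hm k), fun x => ?_, fun k => ⟨_, rfl⟩⟩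
  exact Fintype.sum_equiv (finCongr hm) _ _ (fun k => by simp [finCongr])

/-- the bound at one argument -/
theorem step_core {m : ℕ} (c : Fin (m + 1) → ℝ) (X₀ E g P' A' x : ℕ) (θ M₀ K l B N : ℝ)
    (hm1 : 1 ≤ m) (hθ : 0 < θ)
    (hX₀ : ∀ X : ℕ, X₀ ≤ X → ∀ W : ℕ, (X : ℝ) ^ θ ≤ W → W ≤ X →
      ∑ u ∈ range X, (∑ s ∈ Icc 1 W, (th (u + s) - 1)) ^ 2 ≤ X * (W : ℝ) ^ 2 / (Real.log X) ^ (2 * E))
    (hM₀ : 0 < M₀) (hK : 0 < K) (hl : 1 ≤ l) (hx1 : 1 ≤ x) (hxX : X₀ ≤ x) (hxl : Real.exp (l / 4) ≤ x)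
    (hgm : g ≤ m) (hKl : 1 ≤ K * l ^ (P' + A'))
    (hbig : 2 * K * (M₀ + 3) ^ θ * l ^ (P' + A') ≤ (x : ℝ) ^ ((g : ℝ) - m * θ))
    (hB : 1 ≤ B) (hxB : (M₀ + 3) * (x : ℝ) ^ m ≤ Real.exp B)
    (h : Fin (m + 1) → ℝ) (h1 : ∑ k, h k * (x : ℝ) ^ (k : ℕ) = 1)
    (h2 : ∀ k, |h k| * (x : ℝ) ^ g ≤ K * l ^ P')
    (Φ : (Fin (m + 1) → ℝ) → ℝ) (hΦm : Measurable Φ) (hN : 0 ≤ N)
    (hsz : ∀ ω : Fin (m + 1) → ℝ, (∀ i, c i - (l ^ A')⁻¹ ≤ ω i ∧ ω i ≤ c i + 1 + (l ^ A')⁻¹) →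
      0 ≤ val ω x ∧ val ω x ≤ M₀ * (x : ℝ) ^ m ∧ |Φ ω| ≤ N)
    (hΦ : ∀ (ω : Fin (m + 1) → ℝ) (t : ℝ), Φ (ω + t • h) = Φ ω) :
    |∫ ω in Q c, Φ ω * (th ⌊val ω x⌋₊ - 1)| ≤
      2 * (m + 1) * N * B * (l ^ A')⁻¹ + N * (Real.sqrt (M₀ + 3) * (4 / l) ^ E) := by
  have hx1' : (1 : ℝ) ≤ x := by exact_mod_cast hx1
  have hx0 : (0 : ℝ) < x := by linarith
  have hl0 : 0 < l := by linarith
  have hxm1 : (1 : ℝ) ≤ (x : ℝ) ^ m := one_le_pow₀ hx1'
  have hxm : (x : ℝ) ≤ (x : ℝ) ^ m := by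
    calc (x : ℝ) = (x : ℝ) ^ 1 := (pow_one _).symm
      _ ≤ (x : ℝ) ^ m := pow_le_pow_right₀ hx1' hm1
  obtain ⟨X, hXdef⟩ : ∃ X : ℕ, X = ⌈(M₀ + 1) * (x : ℝ) ^ m⌉₊ + 1 := ⟨_, rfl⟩
  have hXlb : (M₀ + 1) * (x : ℝ) ^ m + 1 ≤ X := by
    rw [hXdef]
    push_cast
    linarith [Nat.le_ceil ((M₀ + 1) * (x : ℝ) ^ m)]
  have hXub : (X : ℝ) ≤ (M₀ + 3) * (x : ℝ) ^ m := by
    rw [hXdef]
    push_cast
    have := Nat.ceil_lt_add_one (a := (M₀ + 1) * (x : ℝ) ^ m) (by positivity)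
    nlinarith
  have hxX' : (x : ℝ) ≤ X := by
    have : 0 < M₀ * (x : ℝ) ^ m := by positivity
    linarith
  have hX0 : (0 : ℝ) < X := by linarith
  have hlogX : l / 4 ≤ Real.log X := by
    rw [Real.le_log_iff_exp_le hX0]
    linarith
  have hlogX0 : 0 < Real.log X := by linarith
  obtain ⟨y, hy⟩ : ∃ y : ℝ, y = (x : ℝ) ^ g / (K * l ^ (P' + A')) := ⟨_, rfl⟩
  have hKl0 : 0 < K * l ^ (P' + A') := by positivity
  have hy0 : 0 < y := by rw [hy]; positivity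
  have hyX : 2 * (X : ℝ) ^ θ ≤ y := by
    rw [hy, le_div_iff₀ hKl0]
    have e1 : (X : ℝ) ^ θ ≤ (M₀ + 3) ^ θ * (x : ℝ) ^ (m * θ) := by
      calc (X : ℝ) ^ θ ≤ ((M₀ + 3) * (x : ℝ) ^ m) ^ θ := Real.rpow_le_rpow hX0.le hXub hθ.le
        _ = (M₀ + 3) ^ θ * (x : ℝ) ^ (m * θ) := by
          rw [Real.mul_rpow (by linarith) (by positivity), Real.rpow_mul hx0.le, Real.rpow_natCast]
    have e2 : (x : ℝ) ^ ((g : ℝ) - m * θ) * (x : ℝ) ^ (m * θ) = (x : ℝ) ^ g := by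
      rw [← Real.rpow_add hx0, sub_add_cancel, Real.rpow_natCast]
    have e3 : 0 < (x : ℝ) ^ (m * θ) := Real.rpow_pos_of_pos hx0 _
    calc 2 * (X : ℝ) ^ θ * (K * l ^ (P' + A'))
        ≤ 2 * ((M₀ + 3) ^ θ * (x : ℝ) ^ (m * θ)) * (K * l ^ (P' + A')) := by gcongr
      _ = (2 * K * (M₀ + 3) ^ θ * l ^ (P' + A')) * (x : ℝ) ^ (m * θ) := by ring
      _ ≤ (x : ℝ) ^ ((g : ℝ) - m * θ) * (x : ℝ) ^ (m * θ) := by gcongr
      _ = (x : ℝ) ^ g := e2
  have hXθ : 1 ≤ (X : ℝ) ^ θ := Real.one_le_rpow (by linarith) hθ.le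
  obtain ⟨W, hWdef⟩ : ∃ W : ℕ, W = ⌊y⌋₊ := ⟨_, rfl⟩
  have hWy : (W : ℝ) ≤ y := by rw [hWdef]; exact Nat.floor_le hy0.le
  have hWy' : y < W + 1 := by rw [hWdef]; exact Nat.lt_floor_add_one y
  have hWθ : (X : ℝ) ^ θ ≤ W := by linarith
  have hW1' : (1 : ℝ) ≤ W := by linarith
  have hW1 : 1 ≤ W := by exact_mod_cast hW1'
  have hyg : y ≤ (x : ℝ) ^ g := by
    rw [hy]
    exact div_le_self (by positivity) hKl
  have hWX : W ≤ X := by
    have : (W : ℝ) ≤ X := by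
      have e1 : (x : ℝ) ^ g ≤ (x : ℝ) ^ m := pow_le_pow_right₀ hx1' hgm
      have : 0 < M₀ * (x : ℝ) ^ m := by positivity
      linarith
    exact_mod_cast this
  have hvar := hX₀ X (by
    have : X₀ ≤ x := hxX
    have h3 : x ≤ X := by exact_mod_cast hxX'
    omega) W hWθ hWX
  have hgen := genM c (fun k => (x : ℝ) ^ (k : ℕ)) (Fin.last m) (by positivity) X W hW1 h h1 (l ^ A')⁻¹
    (fun i => by
      have e1 := h2 i
      have e2 : (0 : ℝ) < (x : ℝ) ^ g := by positivity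
      have e3 : |h i| ≤ K * l ^ P' / (x : ℝ) ^ g := by rwa [le_div_iff₀ e2]
      calc (W : ℝ) * |h i| ≤ y * (K * l ^ P' / (x : ℝ) ^ g) := by gcongr
        _ = (l ^ A')⁻¹ := by
          rw [hy, pow_add]
          field_simp)
    (fun n => th n - 1) B
    (fun n hn => by
      have e1 : (n : ℝ) ≤ X := by exact_mod_cast hn.le
      obtain ⟨e2, e3⟩ := step_th n B hB (by linarith)
      rw [abs_le]
      constructor <;> linarith)
    Φ hΦm N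
    (fun ω hω => by
      obtain ⟨e1, e2, e3⟩ := hsz ω hω
      refine ⟨e1, ?_, e3⟩
      change val ω x < X
      have : 0 < (x : ℝ) ^ m := by positivity
      nlinarith)
    hΦ
  have hset : ∀ ω : Fin (m + 1) → ℝ, ∑ i, ω i * (x : ℝ) ^ (i : ℕ) = val ω x := fun ω => rfl
  simp only [hset] at hgen
  refine hgen.trans ?_
  have hfirst : 2 * ((m + 1 : ℕ) : ℝ) * N * B * (l ^ A')⁻¹ = 2 * (m + 1) * N * B * (l ^ A')⁻¹ := by
    push_cast; ring
  rw [hfirst]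
  have hsec : Real.sqrt ((∑ u ∈ range X, (∑ s ∈ Icc 1 W, (th (u + s) - 1)) ^ 2) / (x : ℝ) ^ ((Fin.last m : Fin (m + 1)) : ℕ)) ≤
      Real.sqrt (M₀ + 3) * (4 / l) ^ E * W := by
    rw [Fin.val_last]
    have e0 : 0 ≤ Real.sqrt (M₀ + 3) * (4 / l) ^ E * W := by positivity
    rw [← Real.sqrt_sq e0]
    apply Real.sqrt_le_sqrt
    have e1 : (Real.sqrt (M₀ + 3) * (4 / l) ^ E * W) ^ 2 = (M₀ + 3) * ((4 / l) ^ E) ^ 2 * (W : ℝ) ^ 2 := by
      rw [mul_pow, mul_pow, Real.sq_sqrt (by linarith)]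
    rw [e1, div_le_iff₀ (by positivity)]
    have e2 : 1 / (Real.log X) ^ (2 * E) ≤ ((4 / l) ^ E) ^ 2 := by
      rw [← pow_mul, mul_comm E 2, ← one_div_pow]
      have : 1 / Real.log X ≤ 4 / l := by
        rw [div_le_div_iff₀ hlogX0 hl0]
        linarith
      gcongr
    calc ∑ u ∈ range X, (∑ s ∈ Icc 1 W, (th (u + s) - 1)) ^ 2
        ≤ X * (W : ℝ) ^ 2 / (Real.log X) ^ (2 * E) := hvar
      _ = X * (W : ℝ) ^ 2 * (1 / (Real.log X) ^ (2 * E)) := by ring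
      _ ≤ ((M₀ + 3) * (x : ℝ) ^ m) * (W : ℝ) ^ 2 * ((4 / l) ^ E) ^ 2 := by gcongr
      _ = (M₀ + 3) * ((4 / l) ^ E) ^ 2 * (W : ℝ) ^ 2 * (x : ℝ) ^ m := by ring
  have hW0 : (0 : ℝ) < W := by linarith
  have hthird : N * Real.sqrt ((∑ u ∈ range X, (∑ s ∈ Icc 1 W, (th (u + s) - 1)) ^ 2) / (x : ℝ) ^ ((Fin.last m : Fin (m + 1)) : ℕ)) / W ≤
      N * (Real.sqrt (M₀ + 3) * (4 / l) ^ E) := by
    rw [div_le_iff₀ hW0]
    calc _ ≤ N * (Real.sqrt (M₀ + 3) * (4 / l) ^ E * W) := by gcongr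
      _ = N * (Real.sqrt (M₀ + 3) * (4 / l) ^ E) * W := by ring
  linarith

theorem step (hVAR : S_VAR) (r a m : ℕ) (hr : 1 ≤ r) (hm : m + 1 = a + (r + r)) (had : 5 * r < 2 * a + 4)
    (c : Fin (m + 1) → ℝ) (hc : 0 < c (Fin.last m)) (s : Fin r → ℕ) (hs : Function.Injective s) (D A : ℕ) :
    ∃ C : ℝ, ∀ᶠ R : ℕ in atTop, ∀ p q : ℕ, Nat.sqrt R ≤ p → p < R → Nat.sqrt R ≤ q → q < R →
      (R : ℝ) / (Real.log R) ^ D ≤ |(p : ℝ) - q| → ∀ (j : Fin (r + r)) (S : Finset (Fin (r + r))), j ∉ S →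
      |∫ ω in Q c, (∏ i ∈ S, th ⌊val ω (nodes s p q i)⌋₊) * (th ⌊val ω (nodes s p q j)⌋₊ - 1)| ≤ C / (Real.log R) ^ A := by
  have hm1 : 1 ≤ m := by omega
  obtain ⟨δ, ρ₀, M₀, hδ, hρ₀, hM₀, hsize⟩ := size hm1 c hc
  obtain ⟨K, hK, hdir⟩ := clusterDir r a hr s hs D
  obtain ⟨x₀, hsize⟩ := eventually_atTop.1 hsize
  obtain ⟨g, hg⟩ : ∃ g, g + r = a + 1 := ⟨a + 1 - r, by omega⟩
  have hgm : g ≤ m := by omega
  have hmpos : (0 : ℝ) < m := by exact_mod_cast (by omega : 0 < m)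
  have hg3' : (m : ℝ) < 3 * g := by exact_mod_cast (by omega : m < 3 * g)
  obtain ⟨θ, hθdef⟩ : ∃ θ : ℝ, θ = ((g : ℝ) / m + 1 / 3) / 2 := ⟨_, rfl⟩
  have hgm3 : 1 / 3 < (g : ℝ) / m := by rw [lt_div_iff₀ hmpos]; linarith
  have hθ : 1 / 3 < θ := by rw [hθdef]; linarith
  have hη : 0 < (g : ℝ) - m * θ := by
    have : m * ((g : ℝ) / m) = g := by field_simp
    rw [hθdef]
    nlinarith
  obtain ⟨X₀, hX₀⟩ := hVAR θ hθ (2 * (A + 2 * r))
  obtain ⟨P, hP⟩ : ∃ P : ℕ, P = r * (D + 1) + (A + 2 * r + 1) := ⟨_, rfl⟩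
  obtain ⟨T, hT⟩ : ∃ T : ℕ, T = ∑ i, s i := ⟨_, rfl⟩
  have hlog : Tendsto (fun R : ℕ => Real.log (R : ℝ)) atTop atTop :=
    Real.tendsto_log_atTop.comp tendsto_natCast_atTop_atTop
  have e1 : ∀ᶠ R : ℕ in atTop, 1 ≤ Real.log (R : ℝ) := hlog.eventually_ge_atTop 1
  have e2 : ∀ᶠ R : ℕ in atTop, ((Real.log (R : ℝ)) ^ (A + 2 * r + 1))⁻¹ ≤ ρ₀ := by
    have : Tendsto (fun R : ℕ => ((Real.log (R : ℝ)) ^ (A + 2 * r + 1))⁻¹) atTop (𝓝 0) :=
      ((tendsto_pow_atTop (by omega)).comp hlog).inv_tendsto_atTop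
    exact (this.eventually_lt_const hρ₀).mono fun _ h => h.le
  have e3 : ∀ᶠ R : ℕ in atTop, (M₀ + 3) * 2 ^ m ≤ (R : ℝ) :=
    tendsto_natCast_atTop_atTop.eventually_ge_atTop _
  have e4 : ∀ᶠ R : ℕ in atTop, (max (max X₀ x₀) 2) * (max (max X₀ x₀) 2) ≤ R := eventually_ge_atTop _
  have e5 : ∀ᶠ R : ℕ in atTop, 2 * K * (M₀ + 3) ^ θ * (Real.log (R : ℝ)) ^ P ≤
      Real.exp (((g : ℝ) - m * θ) / 4 * Real.log (R : ℝ)) := by
    have h0 : 0 < 2 * K * (M₀ + 3) ^ θ := by positivity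
    have h1 := (isLittleO_pow_exp_pos_mul_atTop (k := P) (b := ((g : ℝ) - m * θ) / 4) (by linarith)).def
      (c := (2 * K * (M₀ + 3) ^ θ)⁻¹) (by positivity)
    refine (hlog.eventually h1).mono fun R h2 => ?_
    rw [Real.norm_eq_abs, Real.norm_eq_abs, Real.abs_exp] at h2
    have h3 := (le_abs_self _).trans h2
    calc 2 * K * (M₀ + 3) ^ θ * (Real.log (R : ℝ)) ^ P
        ≤ 2 * K * (M₀ + 3) ^ θ * ((2 * K * (M₀ + 3) ^ θ)⁻¹ * Real.exp (((g : ℝ) - m * θ) / 4 * Real.log (R : ℝ))) := by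
          gcongr
      _ = Real.exp (((g : ℝ) - m * θ) / 4 * Real.log (R : ℝ)) := by
          rw [← mul_assoc, mul_inv_cancel₀ h0.ne', one_mul]
  have e6 : ∀ᶠ R : ℕ in atTop, 1 ≤ K * (Real.log (R : ℝ)) ^ P := by
    have : Tendsto (fun R : ℕ => K * (Real.log (R : ℝ)) ^ P) atTop atTop :=
      ((tendsto_pow_atTop (by omega)).comp hlog).const_mul_atTop hK
    exact this.eventually_ge_atTop 1
  have e7 : ∀ᶠ R : ℕ in atTop, T ≤ R := eventually_ge_atTop _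
  refine ⟨2 * (m + 1) * (m + 1) ^ (r + r) * (m + 1) + (m + 1) ^ (r + r) * Real.sqrt (M₀ + 3) * 4 ^ (A + 2 * r), ?_⟩
  filter_upwards [e1, e2, e3, e4, e5, e6, e7, hdir] with R h1 h2 h3 h4 h5 h6 h7 hdirR p q hp hp' hq hq' hpq j S hjS
  obtain ⟨l, hl⟩ : ∃ l : ℝ, l = Real.log (R : ℝ) := ⟨_, rfl⟩
  rw [← hl] at h1 h2 h5 h6 ⊢
  have hl0 : 0 < l := by linarith
  have hsq : max (max X₀ x₀) 2 ≤ Nat.sqrt R := Nat.le_sqrt.2 h4
  have hRpos : (0 : ℝ) < R := by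
    have : 0 < R := by
      have : 2 ≤ Nat.sqrt R := (le_max_right _ _).trans hsq
      have h8 := Nat.sqrt_le_self R
      omega
    exact_mod_cast this
  have hexpl : Real.exp l = R := by rw [hl, Real.exp_log hRpos]
  -- the size of the nodes
  have hsqexp : Real.exp (l / 4) ≤ Nat.sqrt R := by
    have h2' : 2 ≤ Nat.sqrt R := (le_max_right _ _).trans hsq
    have h2'' : (2 : ℝ) ≤ (Nat.sqrt R : ℝ) := by exact_mod_cast h2'
    have h8 : R < (Nat.sqrt R + 1) * (Nat.sqrt R + 1) := Nat.lt_succ_sqrt R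
    have h9 : (R : ℝ) < ((Nat.sqrt R : ℝ) + 1) * ((Nat.sqrt R : ℝ) + 1) := by exact_mod_cast h8
    have h10 : (R : ℝ) ≤ (Nat.sqrt R : ℝ) ^ 4 := by
      have h11 : (Nat.sqrt R : ℝ) + 1 ≤ (Nat.sqrt R : ℝ) ^ 2 := by nlinarith
      have h12 : ((Nat.sqrt R : ℝ) + 1) * ((Nat.sqrt R : ℝ) + 1) ≤ (Nat.sqrt R : ℝ) ^ 2 * (Nat.sqrt R : ℝ) ^ 2 := by
        gcongr
      calc (R : ℝ) ≤ _ := h9.le
        _ ≤ _ := h12
        _ = _ := by ring
    have h13 : (Real.exp (l / 4)) ^ 4 = R := by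
      rw [← Real.exp_nat_mul, ← hexpl]
      congr 1
      push_cast
      ring
    have h14 : (Real.exp (l / 4)) ^ 4 ≤ (Nat.sqrt R : ℝ) ^ 4 := by rw [h13]; exact h10
    exact le_of_pow_le_pow_left₀ (by norm_num) (by positivity) h14
  have hnode : ∀ i, Nat.sqrt R ≤ nodes s p q i ∧ nodes s p q i ≤ R + T := by
    intro i
    rw [hT]
    exact step_nodes s p q R hp hp' hq hq' i
  obtain ⟨B, hBdef⟩ : ∃ B : ℝ, B = (m + 1) * l := ⟨_, rfl⟩
  have hB1 : 1 ≤ B := by rw [hBdef]; nlinarith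
  have hexpB : Real.exp B = (R : ℝ) ^ (m + 1) := by
    rw [hBdef, ← hexpl, ← Real.exp_nat_mul]
    push_cast
    rfl
  have hbound : ∀ i, (M₀ + 3) * (nodes s p q i : ℝ) ^ m ≤ Real.exp B := by
    intro i
    have h8 : (nodes s p q i : ℝ) ≤ 2 * R := by
      have h9 := (hnode i).2
      have h10 : nodes s p q i ≤ 2 * R := by omega
      exact_mod_cast h10
    rw [hexpB]
    calc (M₀ + 3) * (nodes s p q i : ℝ) ^ m ≤ (M₀ + 3) * (2 * R) ^ m := by gcongr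
      _ = ((M₀ + 3) * 2 ^ m) * (R : ℝ) ^ m := by rw [mul_pow]; ring
      _ ≤ R * (R : ℝ) ^ m := by gcongr
      _ = (R : ℝ) ^ (m + 1) := by ring
  have hsz : ∀ ω : Fin (m + 1) → ℝ, (∀ i, c i - (l ^ (A + 2 * r + 1))⁻¹ ≤ ω i ∧ ω i ≤ c i + 1 + (l ^ (A + 2 * r + 1))⁻¹) →
      ∀ i, 0 ≤ val ω (nodes s p q i) ∧ val ω (nodes s p q i) ≤ M₀ * (nodes s p q i : ℝ) ^ m := by
    intro ω hω i
    have h8 : x₀ ≤ nodes s p q i := by
      have h9 : x₀ ≤ Nat.sqrt R := ((le_max_right _ _).trans (le_max_left _ _)).trans hsq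
      exact h9.trans (hnode i).1
    obtain ⟨h10, h11⟩ := hsize _ h8 ω (fun k => ⟨by linarith [(hω k).1], by linarith [(hω k).2]⟩)
    exact ⟨le_trans (by positivity) h10, h11⟩
  obtain ⟨h, hh1, hh2, hh3⟩ := hdirR p q hp hp' hq hq' hpq j
  obtain ⟨h', hh', hk'⟩ := step_dir hm h
  have hx1 : 1 ≤ nodes s p q j := by
    have h9 : 2 ≤ Nat.sqrt R := (le_max_right _ _).trans hsq
    have := (hnode j).1
    omega
  have hx1' : (1 : ℝ) ≤ (nodes s p q j : ℝ) := by exact_mod_cast hx1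
  have hxexp : Real.exp (l / 4) ≤ (nodes s p q j : ℝ) := by
    refine hsqexp.trans ?_
    exact_mod_cast (hnode j).1
  have hmain := step_core c X₀ (A + 2 * r) g (r * (D + 1)) (A + 2 * r + 1) (nodes s p q j) θ M₀ K l B (B ^ (r + r))
    hm1 (by linarith) hX₀ hM₀ hK h1 hx1
    (by
      have h9 : X₀ ≤ Nat.sqrt R := ((le_max_left _ _).trans (le_max_left _ _)).trans hsq
      exact h9.trans (hnode j).1)
    hxexp hgm (by rw [← hP]; exact h6)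
    (by
      rw [← hP]
      refine h5.trans ?_
      calc Real.exp (((g : ℝ) - m * θ) / 4 * l) = (Real.exp (l / 4)) ^ ((g : ℝ) - m * θ) := by
            rw [← Real.exp_mul]
            congr 1
            ring
        _ ≤ _ := Real.rpow_le_rpow (Real.exp_pos _).le hxexp hη.le)
    hB1 (hbound j) h' (by rw [hh']; exact hh1)
    (fun k => by
      obtain ⟨k', hk''⟩ := hk' k
      rw [hk'']
      have h8 := hh3 k'
      rw [← hl] at h8
      have h9 : a = g + (r - 1) := by omega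
      rw [h9, pow_add] at h8
      have h10 : (0 : ℝ) < (nodes s p q j : ℝ) ^ (r - 1) := by positivity
      have h11 : (|h k'| * (nodes s p q j : ℝ) ^ g) * (nodes s p q j : ℝ) ^ (r - 1) ≤
          (K * l ^ (r * (D + 1))) * (nodes s p q j : ℝ) ^ (r - 1) := by
        calc _ = |h k'| * ((nodes s p q j : ℝ) ^ g * (nodes s p q j : ℝ) ^ (r - 1)) := by ring
          _ ≤ _ := h8
          _ = _ := by ring
      exact le_of_mul_le_mul_right h11 h10)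
    (fun ω => ∏ i ∈ S, th ⌊val ω (nodes s p q i)⌋₊)
    (Finset.measurable_prod _ fun i _ => step_val_meas _)
    (by positivity)
    (fun ω hω => by
      refine ⟨(hsz ω hω j).1, (hsz ω hω j).2, ?_⟩
      have hth : ∀ i, 0 ≤ th ⌊val ω (nodes s p q i)⌋₊ ∧ th ⌊val ω (nodes s p q i)⌋₊ ≤ B := by
        intro i
        obtain ⟨h8, h9⟩ := hsz ω hω i
        refine step_th _ B hB1 ?_
        have h10 := Nat.floor_le h8
        have h11 := hbound i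
        have h12 : 0 ≤ (nodes s p q i : ℝ) ^ m := by positivity
        linarith
      rw [abs_of_nonneg (Finset.prod_nonneg fun i _ => (hth i).1)]
      calc ∏ i ∈ S, th ⌊val ω (nodes s p q i)⌋₊ ≤ ∏ i ∈ S, B :=
            Finset.prod_le_prod (fun i _ => (hth i).1) fun i _ => (hth i).2
        _ = B ^ S.card := by rw [Finset.prod_const]
        _ ≤ B ^ (r + r) := by
            apply pow_le_pow_right₀ hB1
            have := Finset.card_le_univ S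
            rwa [Fintype.card_fin] at this)
    (fun ω t => by
      refine Finset.prod_congr rfl fun i hi => ?_
      have hij : i ≠ j := fun h => hjS (h ▸ hi)
      rw [step_val_add]
      have : val h' (nodes s p q i) = 0 := by
        unfold val
        rw [hh']
        exact hh2 i hij
      rw [this, mul_zero, add_zero])
  refine hmain.trans (le_of_eq ?_)
  rw [hBdef]
  have h8 : l ^ (A + 2 * r + 1) = l ^ A * l ^ (r + r) * l := by ring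
  have h9 : (4 / l) ^ (A + 2 * r) = 4 ^ (A + 2 * r) / (l ^ A * l ^ (r + r)) := by
    rw [div_pow]
    congr 1
    ring
  rw [h8, h9, mul_pow]
  field_simp

end TM7

end Pool.Agent.helper616_TM
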