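import Pool.Agent.helper616_TM.Defs

/-!
# Project TM (helper616): products
-/

set_option autoImplicit false
set_option maxHeartbeats 4000000

open Finset MeasureTheory Filter Topology
open Pool.Agent.helper616_RP (th S_VAR)

namespace Pool.Agent.helper616_TM

namespace TM8


theorem J8913_cont {m : ℕ} (y : ℕ) : Continuous (fun ω : Fin m → ℝ => val ω y) := by
  unfold val
  fun_prop

theorem J8913_meas {m : ℕ} (y : ℕ) : Measurable (fun ω : Fin m → ℝ => th ⌊val ω y⌋₊) := by
  have h1 : Measurable (fun ω : Fin m → ℝ => ⌊val ω y⌋₊) := Nat.measurable_floor.comp (J8913_cont y).measurable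
  exact (measurable_from_nat (f := th)).comp h1

theorem J8913_thle (n : ℕ) : |th n| ≤ n := by
  unfold th
  split_ifs with h
  · have h1 : (1 : ℝ) ≤ n := by exact_mod_cast h.one_lt.le
    rw [abs_of_nonneg (Real.log_nonneg h1)]
    have := Real.log_le_sub_one_of_pos (by linarith : (0 : ℝ) < n)
    linarith
  · rw [abs_zero]; exact Nat.cast_nonneg n

theorem J8913_floor (v : ℝ) : (⌊v⌋₊ : ℝ) ≤ |v| := by
  rcases le_total 0 v with h | h
  · exact (Nat.floor_le h).trans (le_abs_self v)
  · rw [Nat.floor_of_nonpos h]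
    simp

theorem J8913_int {m : ℕ} (a : Fin m → ℝ) {ι : Type} (S : Finset ι) (x : ι → ℕ) :
    IntegrableOn (fun ω : Fin m → ℝ => ∏ i ∈ S, th ⌊val ω (x i)⌋₊) (Q a) volume := by
  have hG : IntegrableOn (fun ω : Fin m → ℝ => ∏ i ∈ S, |val ω (x i)|) (Q a) volume := by
    apply ContinuousOn.integrableOn_compact
    · exact isCompact_Icc
    · apply Continuous.continuousOn
      exact continuous_finsetProd _ (fun i _ => (J8913_cont (x i)).abs)
  refine Integrable.mono' hG ?_ ?_
  · apply Measurable.aestronglyMeasurable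
    exact Finset.measurable_prod _ (fun i _ => J8913_meas (x i))
  · refine Filter.Eventually.of_forall (fun ω => ?_)
    rw [Real.norm_eq_abs, Finset.abs_prod]
    exact Finset.prod_le_prod (fun i _ => abs_nonneg _) (fun i _ => (J8913_thle _).trans (J8913_floor _))

theorem J8913_vol {m : ℕ} (a : Fin m → ℝ) : (volume (Q a)).toReal = 1 := by
  unfold Q
  rw [Real.volume_Icc_pi]
  simp

theorem core (r m : ℕ) (hm : 1 ≤ m) (c : Fin (m + 1) → ℝ) (hc : 0 < c (Fin.last m)) (s : Fin r → ℕ)
    (hstep : ∀ D A : ℕ, ∃ C : ℝ, ∀ᶠ R : ℕ in atTop, ∀ p q : ℕ, Nat.sqrt R ≤ p → p < R → Nat.sqrt R ≤ q → q < R →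
      (R : ℝ) / (Real.log R) ^ D ≤ |(p : ℝ) - q| → ∀ (j : Fin (r + r)) (S : Finset (Fin (r + r))), j ∉ S →
      |∫ ω in Q c, (∏ i ∈ S, th ⌊val ω (nodes s p q i)⌋₊) * (th ⌊val ω (nodes s p q j)⌋₊ - 1)| ≤ C / (Real.log R) ^ A)
    (D A : ℕ) :
    ∃ C : ℝ, ∀ᶠ R : ℕ in atTop, ∀ p q : ℕ, Nat.sqrt R ≤ p → p < R → Nat.sqrt R ≤ q → q < R →
      (R : ℝ) / (Real.log R) ^ D ≤ |(p : ℝ) - q| →
      |(∫ ω in Q c, tup s p ω) - 1| ≤ C / (Real.log R) ^ A ∧ |(∫ ω in Q c, tup s p ω * tup s q ω) - 1| ≤ C / (Real.log R) ^ A := by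
  obtain ⟨C, hC⟩ := hstep D A
  refine ⟨2 * r * |C|, ?_⟩
  filter_upwards [hC, eventually_ge_atTop 2] with R hR hR2 p q hp hp' hq hq' hpq
  have hR2' : (2 : ℝ) ≤ R := by exact_mod_cast hR2
  have hlog : 0 < Real.log R := Real.log_pos (by linarith)
  have hLA : 0 < (Real.log R) ^ A := by positivity
  have key : ∀ S : Finset (Fin (r + r)),
      |(∫ ω in Q c, ∏ i ∈ S, th ⌊val ω (nodes s p q i)⌋₊) - 1| ≤ S.card * (|C| / (Real.log R) ^ A) := by
    intro S
    induction S using Finset.induction_on with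
    | empty =>
      simp only [Finset.prod_empty, Finset.card_empty, Nat.cast_zero, zero_mul]
      rw [setIntegral_const]
      have hv := J8913_vol c
      rw [smul_eq_mul, mul_one]
      unfold Measure.real
      rw [hv]
      simp
    | insert j S hj ih =>
      have h1 := hR p q hp hp' hq hq' hpq j S hj
      have hi1 := J8913_int c (insert j S) (nodes s p q)
      have hi2 := J8913_int c S (nodes s p q)
      have h2 : ∫ ω in Q c, (∏ i ∈ S, th ⌊val ω (nodes s p q i)⌋₊) * (th ⌊val ω (nodes s p q j)⌋₊ - 1) =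
          (∫ ω in Q c, ∏ i ∈ insert j S, th ⌊val ω (nodes s p q i)⌋₊) -
            ∫ ω in Q c, ∏ i ∈ S, th ⌊val ω (nodes s p q i)⌋₊ := by
        rw [← integral_sub hi1 hi2]
        congr 1
        funext ω
        rw [Finset.prod_insert hj]
        ring
      rw [h2] at h1
      have h3 : C / (Real.log R) ^ A ≤ |C| / (Real.log R) ^ A :=
        div_le_div_of_nonneg_right (le_abs_self C) hLA.le
      rw [Finset.card_insert_of_notMem hj]
      push_cast
      obtain ⟨x, hx⟩ : ∃ x : ℝ, x = ∫ ω in Q c, ∏ i ∈ insert j S, th ⌊val ω (nodes s p q i)⌋₊ := ⟨_, rfl⟩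
      obtain ⟨y, hy⟩ : ∃ y : ℝ, y = ∫ ω in Q c, ∏ i ∈ S, th ⌊val ω (nodes s p q i)⌋₊ := ⟨_, rfl⟩
      rw [← hx, ← hy] at h1
      rw [← hy] at ih
      rw [← hx]
      calc |x - 1| = |(x - y) + (y - 1)| := by ring_nf
        _ ≤ |x - y| + |y - 1| := abs_add_le _ _
        _ ≤ |C| / (Real.log R) ^ A + S.card * (|C| / (Real.log R) ^ A) := add_le_add (h1.trans h3) ih
        _ = ((S.card : ℝ) + 1) * (|C| / (Real.log R) ^ A) := by ring
  have hfin : ∀ S : Finset (Fin (r + r)), (S.card : ℝ) * (|C| / (Real.log R) ^ A) ≤ 2 * r * |C| / (Real.log R) ^ A := by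
    intro S
    have h1 : S.card ≤ r + r := by
      have := Finset.card_le_univ S
      simpa using this
    have h2 : (S.card : ℝ) ≤ 2 * r := by
      have : (S.card : ℝ) ≤ (r : ℝ) + r := by exact_mod_cast h1
      linarith
    rw [mul_div_assoc]
    exact mul_le_mul_of_nonneg_right h2 (by positivity)
  constructor
  · have h1 := key (Finset.univ.map (Fin.castAddEmb r))
    refine le_trans ?_ (h1.trans (hfin _))
    apply le_of_eq
    congr 3
    funext ω
    rw [Finset.prod_map]
    unfold tup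
    refine Finset.prod_congr rfl (fun i _ => ?_)
    have h5 : nodes s p q (Fin.castAddEmb r i) = p + s i := by
      unfold nodes
      exact Fin.append_left _ _ i
    rw [h5]
  · have h1 := key Finset.univ
    refine le_trans ?_ (h1.trans (hfin _))
    apply le_of_eq
    congr 3
    funext ω
    rw [Fin.prod_univ_add]
    unfold tup
    congr 1
    · refine Finset.prod_congr rfl (fun i _ => ?_)
      have h5 : nodes s p q (Fin.castAdd r i) = p + s i := by
        unfold nodes
        exact Fin.append_left _ _ i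
      rw [h5]
    · refine Finset.prod_congr rfl (fun i _ => ?_)
      have h5 : nodes s p q (Fin.natAdd r i) = q + s i := by
        unfold nodes
        exact Fin.append_right _ _ i
      rw [h5]

end TM8

end Pool.Agent.helper616_TM
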