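import Pool.Agent.helper616_TS.Main3
import Pool.Agent.helper616_TS.TS15
import Pool.Agent.helper616_RP.J9
import Pool.Agent.helper616_RP.Main
import Pool.Agent.helper616_TM.TM7
import Pool.Agent.helper616_TM.TM8
import Pool.Agent.helper616_TM.TM9
import Pool.Agent.helper616_TM.TM10
import Pool.Agent.helper616_TM.TM11
import Pool.Agent.helper616_TM.TM12
import Pool.Agent.helper616_TM.TM13

/-!
# Project TM (helper616): tuples of prime values of almost every real polynomial
-/

set_option autoImplicit false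

open Finset MeasureTheory Filter Topology
open Pool.Agent.helper616_RP (th S_VAR)

namespace Pool.Agent.helper616_TM

theorem prob {m : ℕ} (c : Fin m → ℝ) : IsProbabilityMeasure (volume.restrict (Q c) : Measure (Fin m → ℝ)) := by
  constructor
  rw [Measure.restrict_apply_univ]
  unfold Q
  rw [Real.volume_Icc_pi]
  simp

/-- the correlations, on a cube -/
theorem cube (hVAR : S_VAR) (m k : ℕ) (hk : 1 ≤ k) (hmk : 9 * k < 2 * m + 6) (c : Fin (m + 1) → ℝ)
    (hc : 0 < c (Fin.last m)) (s : Fin k → ℕ) (hs : Function.Injective s) :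
    ∀ᵐ ω ∂(volume.restrict (Q c)), ∀ A : ℕ, ∃ C : ℝ, ∀ R : ℕ, 2 ≤ R →
      |(∑ n ∈ range R, tup s n ω) - R| ≤ C * R / (Real.log R) ^ A := by
  have := prob c
  have hstep := fun D A => TM7.step hVAR k (m + 1 - (k + k)) m hk (by omega) (by omega) c hc s hs D A
  have hcore := fun D A => TM8.core k m (by omega) c hc s hstep D A
  obtain ⟨h1, h2⟩ := TM10.sums k c s hcore
  obtain ⟨hmeas, C, hC⟩ := TM9.tup_bound k c s
  refine Pool.Agent.helper616_RP.J9.secondMoment (volume.restrict (Q c)) (fun n => tup s n) hmeas C k (fun n => ?_) h1 h2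
  have hQ : MeasurableSet (Q c) := measurableSet_Icc
  rw [ae_restrict_iff' hQ]
  exact Eventually.of_forall fun ω hω => hC n ω hω

/-- the correlations, for almost all polynomials -/
theorem tuples (hVAR : S_VAR) (m r : ℕ) (hr : 9 * r < 2 * m + 6) :
    ∀ᵐ ω : Fin (m + 1) → ℝ, 0 < ω (Fin.last m) → ∀ k ≤ r, ∀ s : Fin k → ℕ, Function.Injective s →
      ∀ A : ℕ, ∃ C : ℝ, ∀ R : ℕ, 2 ≤ R → |(∑ n ∈ range R, tup s n ω) - R| ≤ C * R / (Real.log R) ^ A := by
  refine TM11.ae_cubes _ fun c hc => ?_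
  simp only [ae_all_iff]
  intro k hk s hs A
  rcases Nat.eq_zero_or_pos k with h0 | h0
  · subst h0
    refine Eventually.of_forall fun ω => ⟨0, fun R hR => ?_⟩
    have h1 : (∑ n ∈ range R, tup s n ω) - R = 0 := by simp [tup]
    rw [h1]; simp
  · have h1 := cube hVAR m k h0 (by omega) c hc s hs
    rw [ae_all_iff] at h1
    exact h1 A

/-- the numbers of tuples -/
theorem counts (hVAR : S_VAR) (m r : ℕ) (hr : 9 * r < 2 * m + 6) :
    ∀ᵐ ω : Fin (m + 1) → ℝ, 0 < ω (Fin.last m) → ∀ k ≤ r, ∀ s : Fin k → ℕ, Function.Injective s →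
      Tendsto (fun N : ℕ => (((range N).filter (fun n => ∀ i, (⌊val ω (n + s i)⌋₊).Prime)).card : ℝ) /
        (N / ((∏ _i : Fin k, (m : ℝ)) * (Real.log N) ^ k))) atTop (𝓝 1) := by
  filter_upwards [tuples hVAR m r hr] with ω hω h0 k hk s hs
  rcases Nat.eq_zero_or_pos k with hk0 | hk0
  · subst hk0
    refine tendsto_const_nhds.congr' ?_
    filter_upwards [eventually_ge_atTop 1] with N hN
    have : (0 : ℝ) < N := by exact_mod_cast hN
    simp [this.ne']
  · have hm : 1 ≤ m := by omega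
    have hm0 : (0 : ℝ) < m := by exact_mod_cast hm
    obtain ⟨C, hC⟩ := hω h0 k hk s hs 1
    refine Pool.Agent.helper616_TS.TS15.count_gen th (fun _ => rfl) k (fun i n => val ω (n + s i)) (fun _ => (m : ℝ))
      (fun _ => hm0) (fun i => (TM12.limlog hm ω h0 (s i)).1) (fun i => (TM12.limlog hm ω h0 (s i)).2) ?_
    refine Pool.Agent.helper616_TS.lim_of_err _ 1 C fun R hR => ?_
    rw [mul_one]
    exact hC R hR

/-- exact patterns -/
theorem patterns (hVAR : S_VAR) (m r : ℕ) (hr : 9 * (r + 1) < 2 * m + 6) :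
    ∀ᵐ ω : Fin (m + 1) → ℝ, 0 < ω (Fin.last m) → ∀ (H : Finset ℕ) (_ : H.card ≤ r) (L : ℕ) (_ : ∀ h ∈ H, h < L),
      Tendsto (fun N : ℕ => (pat ω H L N : ℝ) / (N / (m * Real.log N) ^ H.card)) atTop (𝓝 1) := by
  filter_upwards [counts hVAR m (r + 1) hr] with ω hω h0 H hH L hL
  have hm0 : (0 : ℝ) < m := by
    have : 1 ≤ m := by omega
    exact_mod_cast this
  exact TM13.pattern r ω m hm0 (hω h0) H hH L hL

end Pool.Agent.helper616_TM
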